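import Pool.Agent.Lib_helper78.RF.Params

/-!
# RF block ENC (MP_5c38ab_lc): unique readability of the codes
-/

set_option autoImplicit false

namespace Pool.Agent.RF

open Pool.Agent.CK

theorem enc_tag_zero : tag 0 = [false] := rfl

theorem enc_tag_succ (k : ℕ) : tag (k + 1) = true :: tag k := by
  simp [tag, List.replicate_succ]

theorem enc_tag_app {i j : ℕ} {a b : List Bool} :
    tag i ++ a = tag j ++ b ↔ i = j ∧ a = b := by
  induction i generalizing j with
  | zero =>
    cases j with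
    | zero => simp [enc_tag_zero]
    | succ j => simp [enc_tag_zero, enc_tag_succ]
  | succ i ih =>
    cases j with
    | zero => simp [enc_tag_zero, enc_tag_succ]
    | succ j => simp [enc_tag_succ, ih]

theorem enc_tm {s t : Tm} {a b : List Bool} (h : s.enc ++ a = t.enc ++ b) : s = t ∧ a = b := by
  induction s generalizing t a b with
  | var i =>
    cases t <;> simp only [Tm.enc, List.append_assoc, enc_tag_app] at h <;>
      first
      | (exfalso; omega)
      | (obtain ⟨h1, h2⟩ := h; first | (exfalso; omega) | (obtain ⟨h3, h4⟩ := h2; subst h3; exact ⟨rfl, h4⟩))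
  | zero =>
    cases t <;> simp only [Tm.enc, List.append_assoc, enc_tag_app] at h <;>
      (obtain ⟨h1, h2⟩ := h; first | (exfalso; omega) | exact ⟨rfl, h2⟩)
  | succ s ih =>
    cases t <;> simp only [Tm.enc, List.append_assoc, enc_tag_app] at h <;>
      (obtain ⟨h1, h2⟩ := h; first | (exfalso; omega) | (obtain ⟨h3, h4⟩ := ih h2; subst h3; exact ⟨rfl, h4⟩))
  | half s ih =>
    cases t <;> simp only [Tm.enc, List.append_assoc, enc_tag_app] at h <;>
      (obtain ⟨h1, h2⟩ := h; first | (exfalso; omega) | (obtain ⟨h3, h4⟩ := ih h2; subst h3; exact ⟨rfl, h4⟩))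
  | len s ih =>
    cases t <;> simp only [Tm.enc, List.append_assoc, enc_tag_app] at h <;>
      (obtain ⟨h1, h2⟩ := h; first | (exfalso; omega) | (obtain ⟨h3, h4⟩ := ih h2; subst h3; exact ⟨rfl, h4⟩))
  | add s1 s2 ih1 ih2 =>
    cases t <;> simp only [Tm.enc, List.append_assoc, enc_tag_app] at h <;>
      (obtain ⟨h1, h2⟩ := h
       first
       | (exfalso; omega)
       | (obtain ⟨h3, h4⟩ := ih1 h2; obtain ⟨h5, h6⟩ := ih2 h4; subst h3; subst h5; exact ⟨rfl, h6⟩))
  | mul s1 s2 ih1 ih2 =>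
    cases t <;> simp only [Tm.enc, List.append_assoc, enc_tag_app] at h <;>
      (obtain ⟨h1, h2⟩ := h
       first
       | (exfalso; omega)
       | (obtain ⟨h3, h4⟩ := ih1 h2; obtain ⟨h5, h6⟩ := ih2 h4; subst h3; subst h5; exact ⟨rfl, h6⟩))
  | smash s1 s2 ih1 ih2 =>
    cases t <;> simp only [Tm.enc, List.append_assoc, enc_tag_app] at h <;>
      (obtain ⟨h1, h2⟩ := h
       first
       | (exfalso; omega)
       | (obtain ⟨h3, h4⟩ := ih1 h2; obtain ⟨h5, h6⟩ := ih2 h4; subst h3; subst h5; exact ⟨rfl, h6⟩))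
  | sbn s1 s2 s3 ih1 ih2 ih3 =>
    cases t <;> simp only [Tm.enc, List.append_assoc, enc_tag_app] at h <;>
      (obtain ⟨h1, h2⟩ := h
       first
       | (exfalso; omega)
       | (obtain ⟨h3, h4⟩ := ih1 h2; obtain ⟨h5, h6⟩ := ih2 h4; obtain ⟨h7, h8⟩ := ih3 h6
          subst h3; subst h5; subst h7; exact ⟨rfl, h8⟩))

theorem enc_inj {φ ψ : Fm} {a b : List Bool} (h : φ.enc ++ a = ψ.enc ++ b) :
    φ = ψ ∧ a = b := by
  induction φ generalizing ψ a b with
  | eq s1 s2 =>
    cases ψ <;> simp only [Fm.enc, List.append_assoc, enc_tag_app] at h <;>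
      (obtain ⟨h1, h2⟩ := h
       first
       | (exfalso; omega)
       | (obtain ⟨h3, h4⟩ := enc_tm h2; obtain ⟨h5, h6⟩ := enc_tm h4; subst h3; subst h5
          exact ⟨rfl, h6⟩))
  | le s1 s2 =>
    cases ψ <;> simp only [Fm.enc, List.append_assoc, enc_tag_app] at h <;>
      (obtain ⟨h1, h2⟩ := h
       first
       | (exfalso; omega)
       | (obtain ⟨h3, h4⟩ := enc_tm h2; obtain ⟨h5, h6⟩ := enc_tm h4; subst h3; subst h5
          exact ⟨rfl, h6⟩))
  | orc s =>
    cases ψ <;> simp only [Fm.enc, List.append_assoc, enc_tag_app] at h <;>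
      (obtain ⟨h1, h2⟩ := h
       first
       | (exfalso; omega)
       | (obtain ⟨h3, h4⟩ := enc_tm h2; subst h3; exact ⟨rfl, h4⟩))
  | tr s1 s2 s3 s4 =>
    cases ψ <;> simp only [Fm.enc, List.append_assoc, enc_tag_app] at h <;>
      (obtain ⟨h1, h2⟩ := h
       first
       | (exfalso; omega)
       | (obtain ⟨h3, h4⟩ := enc_tm h2; obtain ⟨h5, h6⟩ := enc_tm h4
          obtain ⟨h7, h8⟩ := enc_tm h6; obtain ⟨h9, h10⟩ := enc_tm h8
          subst h3; subst h5; subst h7; subst h9; exact ⟨rfl, h10⟩))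
  | prf s1 s2 s3 s4 =>
    cases ψ <;> simp only [Fm.enc, List.append_assoc, enc_tag_app] at h <;>
      (obtain ⟨h1, h2⟩ := h
       first
       | (exfalso; omega)
       | (obtain ⟨h3, h4⟩ := enc_tm h2; obtain ⟨h5, h6⟩ := enc_tm h4
          obtain ⟨h7, h8⟩ := enc_tm h6; obtain ⟨h9, h10⟩ := enc_tm h8
          subst h3; subst h5; subst h7; subst h9; exact ⟨rfl, h10⟩))
  | neg φ ih =>
    cases ψ <;> simp only [Fm.enc, List.append_assoc, enc_tag_app] at h <;>
      (obtain ⟨h1, h2⟩ := h; first | (exfalso; omega) | (obtain ⟨h3, h4⟩ := ih h2; subst h3; exact ⟨rfl, h4⟩))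
  | imp φ1 φ2 ih1 ih2 =>
    cases ψ <;> simp only [Fm.enc, List.append_assoc, enc_tag_app] at h <;>
      (obtain ⟨h1, h2⟩ := h
       first
       | (exfalso; omega)
       | (obtain ⟨h3, h4⟩ := ih1 h2; obtain ⟨h5, h6⟩ := ih2 h4; subst h3; subst h5; exact ⟨rfl, h6⟩))
  | all i φ ih =>
    cases ψ <;> simp only [Fm.enc, List.append_assoc, enc_tag_app] at h <;>
      (obtain ⟨h1, h2⟩ := h
       first
       | (exfalso; omega)
       | (obtain ⟨h3, h4⟩ := h2; obtain ⟨h5, h6⟩ := ih h4; subst h3; subst h5; exact ⟨rfl, h6⟩))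

theorem enc_cmd {c d : Cmd} {a b : List Bool} (h : cEnc c ++ a = cEnc d ++ b) : c = d ∧ a = b := by
  induction c generalizing d a b with
  | skip =>
    cases d <;> simp only [cEnc, List.append_assoc, enc_tag_app] at h <;>
      (obtain ⟨h1, h2⟩ := h; first | (exfalso; omega) | exact ⟨rfl, h2⟩)
  | push r x =>
    cases d <;> simp only [cEnc, List.append_assoc, enc_tag_app] at h <;>
      (obtain ⟨h1, h2⟩ := h
       first
       | (exfalso; omega)
       | (obtain ⟨h3, h4⟩ := h2
          simp only [List.cons_append, List.nil_append, List.cons.injEq] at h4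
          obtain ⟨h5, h6⟩ := h4
          subst h3; subst h5; exact ⟨rfl, h6⟩))
  | pop r =>
    cases d <;> simp only [cEnc, List.append_assoc, enc_tag_app] at h <;>
      (obtain ⟨h1, h2⟩ := h
       first
       | (exfalso; omega)
       | (obtain ⟨h3, h4⟩ := h2; subst h3; exact ⟨rfl, h4⟩))
  | seq c1 c2 ih1 ih2 =>
    cases d <;> simp only [cEnc, List.append_assoc, enc_tag_app] at h <;>
      (obtain ⟨h1, h2⟩ := h
       first
       | (exfalso; omega)
       | (obtain ⟨h3, h4⟩ := ih1 h2; obtain ⟨h5, h6⟩ := ih2 h4; subst h3; subst h5; exact ⟨rfl, h6⟩))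
  | cond r c1 c2 c3 ih1 ih2 ih3 =>
    cases d <;> simp only [cEnc, List.append_assoc, enc_tag_app] at h <;>
      (obtain ⟨h1, h2⟩ := h
       first
       | (exfalso; omega)
       | (obtain ⟨h0, h2⟩ := h2
          obtain ⟨h3, h4⟩ := ih1 h2; obtain ⟨h5, h6⟩ := ih2 h4; obtain ⟨h7, h8⟩ := ih3 h6
          subst h0; subst h3; subst h5; subst h7; exact ⟨rfl, h8⟩))
  | loop r c ih =>
    cases d <;> simp only [cEnc, List.append_assoc, enc_tag_app] at h <;>
      (obtain ⟨h1, h2⟩ := h
       first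
       | (exfalso; omega)
       | (obtain ⟨h0, h2⟩ := h2; obtain ⟨h3, h4⟩ := ih h2; subst h0; subst h3; exact ⟨rfl, h4⟩))
  | ask r c1 c2 ih1 ih2 =>
    cases d <;> simp only [cEnc, List.append_assoc, enc_tag_app] at h <;>
      (obtain ⟨h1, h2⟩ := h
       first
       | (exfalso; omega)
       | (obtain ⟨h0, h2⟩ := h2; obtain ⟨h3, h4⟩ := ih1 h2; obtain ⟨h5, h6⟩ := ih2 h4
          subst h0; subst h3; subst h5; exact ⟨rfl, h6⟩))

theorem cEnc_inj : Function.Injective cEnc := by
  intro c d h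
  have h' : cEnc c ++ [] = cEnc d ++ [] := by rw [h]
  exact (enc_cmd h').1

end Pool.Agent.RF
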