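import Pool.Agent.Lib_helper78.RF.Params

/-!
# Block PRG: the programs with one question
-/

set_option autoImplicit false

namespace Pool.Agent.RF

open Pool.Agent.CK

theorem PRG_pushes (O : Lang) (τ : List Bool) (s : ℕ → List Bool) :
    prog1_Run O (pushes τ) s (Function.update s 0 (τ ++ s 0)) (2 * τ.length + 1) := by
  induction τ with
  | nil =>
    have h : Function.update s 0 ([] ++ s 0) = s := by simp
    rw [h]
    exact prog1_mono (prog1_skip O s) (by simp)
  | cons b τ ih =>
    have h1 := prog1_seq ih (prog1_push O (Function.update s 0 (τ ++ s 0)) 0 b)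
    simp only [Function.update_idem, Function.update_self] at h1
    exact prog1_mono h1 (by simp only [List.length_cons]; omega)

theorem PRG_pops (O : Lang) (n : ℕ) (s : ℕ → List Bool) :
    prog1_Run O (pops n) s (Function.update s 0 ((s 0).drop n)) (2 * n + 1) := by
  induction n generalizing s with
  | zero =>
    have h : Function.update s 0 ((s 0).drop 0) = s := by simp
    rw [h]
    exact prog1_mono (prog1_skip O s) (by simp)
  | succ n ih =>
    have h1 := prog1_seq (prog1_pop O s 0) (ih (Function.update s 0 (s 0).tail))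
    simp only [Function.update_idem, Function.update_self] at h1
    rw [show (s 0).tail.drop n = (s 0).drop (n + 1) by cases s 0 <;> simp] at h1
    exact prog1_mono h1 (by omega)

theorem PRG_stay {O : Lang} {c : Cmd} {x y : List Bool} {t t' : ℕ} (h : Halts O c x y t)
    (ht : t ≤ t') : run O c x y t' = run O c x y t := by
  obtain ⟨u, rfl⟩ := Nat.exists_eq_add_of_le ht
  have h1 : run O c x y t = ([], (run O c x y t).2) := Prod.ext h rfl
  have h2 : run O c x y (t + u) = (step O)^[u] (run O c x y t) := by
    unfold run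
    rw [Nat.add_comm, Function.iterate_add_apply]
  rw [h2, h1, prog1_iter_nil]

theorem orAsk_true {O : Lang} {τ : List Bool} {p : Cmd} {x : List Bool} {t : ℕ}
    (h : O (τ ++ x) = true) (ht : 4 * τ.length + 8 ≤ t) : Accepts O (orAsk τ p) x [] t := by
  have h1 := PRG_pushes O τ (init x [])
  have h0 : (Function.update (init x []) 0 (τ ++ init x [] 0)) 0 = τ ++ x := by
    rw [Function.update_self]; rfl
  have h2 : prog1_Run O (Cmd.ask 0 (.seq (pops τ.length) p) (.push 0 true))
      (Function.update (init x []) 0 (τ ++ init x [] 0)) _ (1 + 1) :=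
    prog1_ask_true (by rw [h0]; exact h) (prog1_push O _ 0 true)
  have h3 := prog1_final (prog1_seq h1 h2) (T' := t) (by omega)
  have h4 : run O (orAsk τ p) x [] t = ([], _) := h3
  refine ⟨by rw [h4], ?_⟩
  rw [h4]
  simp only [Function.update_self, List.head?_cons]

theorem PRG_false {O : Lang} {τ : List Bool} {p : Cmd} {x : List Bool}
    (h : O (τ ++ x) = false) : ∃ t ≤ 4 * τ.length + 5, ∀ u,
      run O (orAsk τ p) x [] (u + t) = run O p x [] u := by
  obtain ⟨t1, ht1, h1⟩ := PRG_pushes O τ (init x [])
  have h0 : (Function.update (init x []) 0 (τ ++ init x [] 0)) 0 = τ ++ x := by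
    rw [Function.update_self]; rfl
  obtain ⟨t2, ht2, h2⟩ := PRG_pops O τ.length (Function.update (init x []) 0 (τ ++ init x [] 0))
  have h5 : Function.update (Function.update (init x []) 0 (τ ++ init x [] 0)) 0
      (((Function.update (init x []) 0 (τ ++ init x [] 0)) 0).drop τ.length) = init x [] := by
    rw [h0, Function.update_idem, List.drop_left]
    exact Function.update_eq_self 0 (init x [])
  rw [h5] at h2
  refine ⟨t2 + 1 + 1 + t1 + 1, by omega, fun u => ?_⟩
  unfold run
  rw [Function.iterate_add_apply, Function.iterate_add_apply, Function.iterate_add_apply,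
    Function.iterate_add_apply, Function.iterate_add_apply]
  have e1 : (step O)^[1] ([orAsk τ p], init x []) =
      ([pushes τ, .ask 0 (.seq (pops τ.length) p) (.push 0 true)], init x []) := rfl
  rw [e1, h1]
  have e2 : (step O)^[1] ([Cmd.ask 0 (.seq (pops τ.length) p) (.push 0 true)],
      Function.update (init x []) 0 (τ ++ init x [] 0)) =
      ([.seq (pops τ.length) p], Function.update (init x []) 0 (τ ++ init x [] 0)) := by
    simp only [Function.iterate_one, step, h0, h]
    rfl
  rw [e2]
  have e3 : (step O)^[1] ([Cmd.seq (pops τ.length) p],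
      Function.update (init x []) 0 (τ ++ init x [] 0)) =
      ([pops τ.length, p], Function.update (init x []) 0 (τ ++ init x [] 0)) := rfl
  rw [e3, h2]

theorem orAsk_spec {O : Lang} {τ : List Bool} {p : Cmd} {k : ℕ}
    (hp : ∀ x : List Bool, Halts O p x [] ((x.length + 2) ^ k)) (x : List Bool) :
    Halts O (orAsk τ p) x [] ((x.length + 2) ^ exAsk τ k) ∧
    (Accepts O (orAsk τ p) x [] ((x.length + 2) ^ exAsk τ k) ↔
      O (τ ++ x) = true ∨ Accepts O p x [] ((x.length + 2) ^ k)) := by
  set m := x.length + 2 with hm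
  have hm2 : 2 ≤ m := by omega
  have htime : m ^ k + (4 * τ.length + 8) ≤ m ^ exAsk τ k := by
    have h1 : exAsk τ k = k + (4 * τ.length + 8) := by unfold exAsk; omega
    rw [h1, pow_add]
    have h2 : 4 * τ.length + 8 < 2 ^ (4 * τ.length + 8) := Nat.lt_two_pow_self
    have h3 : 2 ^ (4 * τ.length + 8) ≤ m ^ (4 * τ.length + 8) := Nat.pow_le_pow_left hm2 _
    have h4 : 1 ≤ m ^ k := Nat.one_le_pow _ _ (by omega)
    have h5 : 4 * τ.length + 8 + 1 ≤ m ^ (4 * τ.length + 8) := by omega
    calc m ^ k + (4 * τ.length + 8) ≤ m ^ k + m ^ k * (4 * τ.length + 8) := by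
          have := Nat.mul_le_mul_right (4 * τ.length + 8) h4
          omega
      _ = m ^ k * (4 * τ.length + 8 + 1) := by ring
      _ ≤ _ := Nat.mul_le_mul_left _ h5
  cases hO : O (τ ++ x) with
  | true =>
    have h1 : Accepts O (orAsk τ p) x [] (m ^ exAsk τ k) := orAsk_true hO (by omega)
    exact ⟨h1.1, fun _ => Or.inl rfl, fun _ => h1⟩
  | false =>
    obtain ⟨t, ht, h1⟩ := PRG_false (p := p) hO
    obtain ⟨u, hu⟩ : ∃ u, m ^ exAsk τ k = u + t := ⟨m ^ exAsk τ k - t, by omega⟩
    have h2 : run O (orAsk τ p) x [] (m ^ exAsk τ k) = run O p x [] (m ^ k) := by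
      rw [hu, h1]
      exact PRG_stay (hp x) (by omega)
    constructor
    · show (run O (orAsk τ p) x [] (m ^ exAsk τ k)).1 = []
      rw [h2]
      exact hp x
    · unfold Accepts
      rw [h2]
      constructor
      · intro h; exact Or.inr h
      · rintro (h | h)
        · exact absurd h (by simp)
        · exact h

end Pool.Agent.RF
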