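import Pool.Agent.Lib_helper78.RF.Params

set_option autoImplicit false

namespace Pool.Agent.RF

open Pool.Agent.CK

theorem prv_nil (A : Fm → Prop) : IsProof A [] := by
  intro i φ hi
  simp at hi

theorem prv_append {A : Fm → Prop} {l l' : List Fm} (h : IsProof A l) (h' : IsProof A l') :
    IsProof A (l ++ l') := by
  intro i φ hi
  rcases lt_or_ge i l.length with hlt | hge
  · rw [List.getElem?_append_left hlt] at hi
    rcases h i φ hi with h1 | h1 | ⟨j, k, ψ, hj, hk, h2, h3⟩
    · exact Or.inl h1
    · exact Or.inr (Or.inl h1)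
    · refine Or.inr (Or.inr ⟨j, k, ψ, hj, hk, ?_, ?_⟩)
      · rw [List.getElem?_append_left (by omega)]
        exact h2
      · rw [List.getElem?_append_left (by omega)]
        exact h3
  · rw [List.getElem?_append_right hge] at hi
    rcases h' (i - l.length) φ hi with h1 | h1 | ⟨j, k, ψ, hj, hk, h2, h3⟩
    · exact Or.inl h1
    · exact Or.inr (Or.inl h1)
    · refine Or.inr (Or.inr ⟨l.length + j, l.length + k, ψ, by omega, by omega, ?_, ?_⟩)
      · rw [List.getElem?_append_right (by omega), Nat.add_sub_cancel_left]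
        exact h2
      · rw [List.getElem?_append_right (by omega), Nat.add_sub_cancel_left]
        exact h3

theorem prv_snoc {A : Fm → Prop} {l : List Fm} {φ : Fm} (h : IsProof A l)
    (h' : Logical φ ∨ A φ ∨ ∃ ψ ∈ l, Fm.imp ψ φ ∈ l) : IsProof A (l ++ [φ]) := by
  intro i χ hi
  rcases lt_or_ge i l.length with hlt | hge
  · rw [List.getElem?_append_left hlt] at hi
    rcases h i χ hi with h1 | h1 | ⟨j, k, ψ, hj, hk, h2, h3⟩
    · exact Or.inl h1
    · exact Or.inr (Or.inl h1)
    · refine Or.inr (Or.inr ⟨j, k, ψ, hj, hk, ?_, ?_⟩)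
      · rw [List.getElem?_append_left (by omega)]
        exact h2
      · rw [List.getElem?_append_left (by omega)]
        exact h3
  · rw [List.getElem?_append_right hge] at hi
    have hlt : i - l.length < [φ].length := (List.getElem?_eq_some_iff.mp hi).1
    have hi0 : i - l.length = 0 := by
      simp only [List.length_cons, List.length_nil] at hlt
      omega
    rw [hi0] at hi
    have hφ : φ = χ := by simpa using hi
    subst hφ
    rcases h' with h1 | h1 | ⟨ψ, h1, h2⟩
    · exact Or.inl h1
    · exact Or.inr (Or.inl h1)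
    · obtain ⟨j, hj⟩ := List.getElem?_of_mem h1
      obtain ⟨k, hk⟩ := List.getElem?_of_mem h2
      have hj' : j < l.length := (List.getElem?_eq_some_iff.mp hj).1
      have hk' : k < l.length := (List.getElem?_eq_some_iff.mp hk).1
      refine Or.inr (Or.inr ⟨j, k, ψ, by omega, by omega, ?_, ?_⟩)
      · rw [List.getElem?_append_left hj']
        exact hj
      · rw [List.getElem?_append_left hk']
        exact hk

theorem prv_ax {A : Fm → Prop} {φ : Fm} (h : A φ) : Provable A φ :=
  ⟨[], prv_snoc (prv_nil A) (Or.inr (Or.inl h))⟩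

theorem prv_log {A : Fm → Prop} {φ : Fm} (h : Logical φ) : Provable A φ :=
  ⟨[], prv_snoc (prv_nil A) (Or.inl h)⟩

theorem prv_mp {A : Fm → Prop} {φ ψ : Fm} (h1 : Provable A (.imp φ ψ)) (h2 : Provable A φ) :
    Provable A ψ := by
  obtain ⟨l1, h1⟩ := h1
  obtain ⟨l2, h2⟩ := h2
  refine ⟨(l1 ++ [.imp φ ψ]) ++ (l2 ++ [φ]), prv_snoc (prv_append h1 h2)
    (Or.inr (Or.inr ⟨φ, ?_, ?_⟩))⟩
  · simp
  · simp

theorem isProof_mono {A A' : Fm → Prop} {l : List Fm} (h : ∀ σ ∈ l, A σ → A' σ)
    (hl : IsProof A l) : IsProof A' l := by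
  intro i φ hi
  rcases hl i φ hi with h1 | h1 | h1
  · exact Or.inl h1
  · exact Or.inr (Or.inl (h φ (List.mem_of_getElem? hi) h1))
  · exact Or.inr (Or.inr h1)

theorem prv_mono {A A' : Fm → Prop} (h : ∀ σ, A σ → A' σ) {φ : Fm} (hφ : Provable A φ) :
    Provable A' φ := by
  obtain ⟨l, hl⟩ := hφ
  exact ⟨l, isProof_mono (fun σ _ => h σ) hl⟩

theorem prv_bot {A : Fm → Prop} {φ : Fm} (h1 : Provable A φ) (h2 : Provable A (.neg φ)) :
    Provable A falsum := by
  have h3 : Provable A (.imp (.neg falsum) (.neg φ)) :=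
    prv_mp (prv_log (Logical.k (.neg φ) (.neg falsum))) h2
  have h4 : Provable A (.imp φ falsum) := prv_mp (prv_log (Logical.c falsum φ)) h3
  exact prv_mp h4 h1

theorem prv_succs_len (m : ℕ) : (succs m).enc.length = 3 * m + 2 := by
  induction m with
  | zero => simp [succs, Tm.enc, tag]
  | succ m ih =>
    simp only [succs, Tm.enc, tag, List.length_append, List.length_replicate, List.length_cons,
      List.length_nil, ih]
    ring

theorem prv_succs_inj {m m' : ℕ} (h : succs m = succs m') : m = m' := by
  have h1 := congrArg (fun t : Tm => t.enc.length) h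
  simp only [prv_succs_len] at h1
  omega

theorem prv_succs_has (i m : ℕ) : ¬ (succs m).has i := by
  induction m with
  | zero => exact fun h => h
  | succ m ih => exact ih

theorem pad_len (m : ℕ) (φ : Fm) : (pad m φ).enc.length = 6 * m + 12 + φ.enc.length := by
  simp only [pad, Fm.enc, tag, List.length_append, List.length_replicate, List.length_cons,
    List.length_nil, prv_succs_len]
  ring

theorem pad_inj {m m' : ℕ} {φ φ' : Fm} (h : pad m φ = pad m' φ') : m = m' ∧ φ = φ' := by
  unfold pad at h
  injection h with h1 h2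
  injection h1 with h3 h4
  exact ⟨prv_succs_inj h3, h2⟩

theorem pad_true (O : Lang) (m : ℕ) (φ : Fm) : (pad m φ).True O ↔ φ.True O := by
  constructor
  · intro h v
    exact h v rfl
  · intro h v _
    exact h v

theorem pad_closed (m : ℕ) (φ : Fm) : (pad m φ).Closed ↔ φ.Closed := by
  constructor
  · intro h i hi
    exact h i (Or.inr hi)
  · intro h i hi
    rcases hi with (hi | hi) | hi
    · exact prv_succs_has i m hi
    · exact prv_succs_has i m hi
    · exact h i hi

theorem pad_proof {A : Fm → Prop} {m : ℕ} {φ : Fm} (h : A (pad m φ)) :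
    ∃ l, IsProof A (l ++ [φ]) ∧
      (pEnc (l ++ [φ])).length ≤ 12 * m + 40 + 2 * φ.enc.length := by
  have h1 : IsProof A ([] ++ [pad m φ]) := prv_snoc (prv_nil A) (Or.inr (Or.inl h))
  have h2 : IsProof A (([] ++ [pad m φ]) ++ [Fm.eq (succs m) (succs m)]) :=
    prv_snoc h1 (Or.inl (Logical.refl _))
  refine ⟨([] ++ [pad m φ]) ++ [Fm.eq (succs m) (succs m)],
    prv_snoc h2 (Or.inr (Or.inr ⟨Fm.eq (succs m) (succs m), ?_, ?_⟩)), ?_⟩
  · simp
  · simp [pad]
  · have h3 : (Fm.eq (succs m) (succs m)).enc.length = 6 * m + 5 := by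
      simp only [Fm.enc, tag, List.length_append, List.length_replicate, List.length_cons,
        List.length_nil, prv_succs_len]
      ring
    simp only [pEnc, List.nil_append, List.cons_append, List.map_cons, List.map_nil,
      List.flatten_cons, List.flatten_nil, List.length_append, List.length_nil, pad_len, h3]
    omega

end Pool.Agent.RF
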