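import Pool.Agent.Lib_helper78.RF.Params

/-!
# Block SUB: the substitution lemma and soundness
-/

set_option autoImplicit false

namespace Pool.Agent.RF

open Pool.Agent.CK

theorem SUB_ev_congr {v w : ℕ → ℕ} {t : Tm} (h : ∀ j, t.has j → v j = w j) :
    t.ev v = t.ev w := by
  induction t with
  | var j => exact h j rfl
  | zero => rfl
  | succ t ih => simp only [Tm.ev]; rw [ih h]
  | half t ih => simp only [Tm.ev]; rw [ih h]
  | len t ih => simp only [Tm.ev]; rw [ih h]
  | add s t ihs iht =>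
    simp only [Tm.ev]; rw [ihs fun j hj => h j (Or.inl hj), iht fun j hj => h j (Or.inr hj)]
  | mul s t ihs iht =>
    simp only [Tm.ev]; rw [ihs fun j hj => h j (Or.inl hj), iht fun j hj => h j (Or.inr hj)]
  | smash s t ihs iht =>
    simp only [Tm.ev]; rw [ihs fun j hj => h j (Or.inl hj), iht fun j hj => h j (Or.inr hj)]
  | sbn r s t ihr ihs iht =>
    simp only [Tm.ev]; rw [ihr fun j hj => h j (Or.inl hj),
      ihs fun j hj => h j (Or.inr (Or.inl hj)), iht fun j hj => h j (Or.inr (Or.inr hj))]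

theorem SUB_ev_sb (v : ℕ → ℕ) (i : ℕ) (a t : Tm) :
    (t.sb i a).ev v = t.ev (Function.update v i (a.ev v)) := by
  induction t with
  | var j =>
    by_cases h : j = i
    · subst h
      simp [Tm.sb, Tm.ev]
    · simp [Tm.sb, Tm.ev, h]
  | zero => rfl
  | succ t ih => simp only [Tm.sb, Tm.ev]; rw [ih]
  | half t ih => simp only [Tm.sb, Tm.ev]; rw [ih]
  | len t ih => simp only [Tm.sb, Tm.ev]; rw [ih]
  | add s t ihs iht => simp only [Tm.sb, Tm.ev]; rw [ihs, iht]
  | mul s t ihs iht => simp only [Tm.sb, Tm.ev]; rw [ihs, iht]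
  | smash s t ihs iht => simp only [Tm.sb, Tm.ev]; rw [ihs, iht]
  | sbn r s t ihr ihs iht => simp only [Tm.sb, Tm.ev]; rw [ihr, ihs, iht]

theorem SUB_tm_sb {t : Tm} {i : ℕ} {a : Tm} (h : ¬ t.has i) : t.sb i a = t := by
  induction t with
  | var j => simp only [Tm.has] at h; simp [Tm.sb, h]
  | zero => rfl
  | succ t ih => simp only [Tm.sb]; rw [ih h]
  | half t ih => simp only [Tm.sb]; rw [ih h]
  | len t ih => simp only [Tm.sb]; rw [ih h]
  | add s t ihs iht =>
    simp only [Tm.has, not_or] at h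
    simp only [Tm.sb]; rw [ihs h.1, iht h.2]
  | mul s t ihs iht =>
    simp only [Tm.has, not_or] at h
    simp only [Tm.sb]; rw [ihs h.1, iht h.2]
  | smash s t ihs iht =>
    simp only [Tm.has, not_or] at h
    simp only [Tm.sb]; rw [ihs h.1, iht h.2]
  | sbn r s t ihr ihs iht =>
    simp only [Tm.has, not_or] at h
    simp only [Tm.sb]; rw [ihr h.1, ihs h.2.1, iht h.2.2]

theorem SUB_fm_sb {φ : Fm} {i : ℕ} {a : Tm} (h : ¬ φ.free i) : φ.sb i a = φ := by
  induction φ with
  | eq s t =>
    simp only [Fm.free, not_or] at h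
    simp only [Fm.sb]; rw [SUB_tm_sb h.1, SUB_tm_sb h.2]
  | le s t =>
    simp only [Fm.free, not_or] at h
    simp only [Fm.sb]; rw [SUB_tm_sb h.1, SUB_tm_sb h.2]
  | orc t =>
    simp only [Fm.free] at h
    simp only [Fm.sb]; rw [SUB_tm_sb h]
  | tr e x w z =>
    simp only [Fm.free, not_or] at h
    simp only [Fm.sb]
    rw [SUB_tm_sb h.1, SUB_tm_sb h.2.1, SUB_tm_sb h.2.2.1, SUB_tm_sb h.2.2.2]
  | prf e x w z =>
    simp only [Fm.free, not_or] at h
    simp only [Fm.sb]
    rw [SUB_tm_sb h.1, SUB_tm_sb h.2.1, SUB_tm_sb h.2.2.1, SUB_tm_sb h.2.2.2]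
  | neg φ ih => simp only [Fm.sb]; rw [ih h]
  | imp φ ψ ih1 ih2 =>
    simp only [Fm.free, not_or] at h
    simp only [Fm.sb]; rw [ih1 h.1, ih2 h.2]
  | all j φ ih =>
    simp only [Fm.free, not_and] at h
    simp only [Fm.sb]
    split_ifs with hj
    · rfl
    · rw [ih (h hj)]

theorem SUB_holds_congr {O : Lang} {φ : Fm} {v w : ℕ → ℕ} (h : ∀ j, φ.free j → v j = w j) :
    φ.Holds O v ↔ φ.Holds O w := by
  induction φ generalizing v w with
  | eq s t =>
    simp only [Fm.Holds]
    rw [SUB_ev_congr fun j hj => h j (Or.inl hj), SUB_ev_congr fun j hj => h j (Or.inr hj)]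
  | le s t =>
    simp only [Fm.Holds]
    rw [SUB_ev_congr fun j hj => h j (Or.inl hj), SUB_ev_congr fun j hj => h j (Or.inr hj)]
  | orc t =>
    simp only [Fm.Holds]
    rw [SUB_ev_congr fun j hj => h j hj]
  | tr e x w' z =>
    simp only [Fm.Holds]
    rw [SUB_ev_congr fun j hj => h j (Or.inl hj), SUB_ev_congr fun j hj => h j (Or.inr (Or.inl hj)),
      SUB_ev_congr fun j hj => h j (Or.inr (Or.inr (Or.inl hj))),
      SUB_ev_congr fun j hj => h j (Or.inr (Or.inr (Or.inr hj)))]
  | prf e x w' z =>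
    simp only [Fm.Holds]
    rw [SUB_ev_congr fun j hj => h j (Or.inl hj), SUB_ev_congr fun j hj => h j (Or.inr (Or.inl hj)),
      SUB_ev_congr fun j hj => h j (Or.inr (Or.inr (Or.inl hj))),
      SUB_ev_congr fun j hj => h j (Or.inr (Or.inr (Or.inr hj)))]
  | neg φ ih =>
    simp only [Fm.Holds]
    rw [ih h]
  | imp φ ψ ih1 ih2 =>
    simp only [Fm.Holds]
    rw [ih1 fun j hj => h j (Or.inl hj), ih2 fun j hj => h j (Or.inr hj)]
  | all i φ ih =>
    simp only [Fm.Holds]
    refine forall_congr' fun b => ih fun j hj => ?_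
    by_cases hji : j = i
    · subst hji; simp
    · rw [Function.update_of_ne hji, Function.update_of_ne hji]
      exact h j ⟨fun h' => hji h'.symm, hj⟩

theorem holds_sb {O : Lang} {v : ℕ → ℕ} {i : ℕ} {a : Tm} {φ : Fm} (h : φ.Ok i a) :
    (φ.sb i a).Holds O v ↔ φ.Holds O (Function.update v i (a.ev v)) := by
  induction φ generalizing v with
  | eq s t => simp only [Fm.sb, Fm.Holds, SUB_ev_sb]
  | le s t => simp only [Fm.sb, Fm.Holds, SUB_ev_sb]
  | orc t => simp only [Fm.sb, Fm.Holds, SUB_ev_sb]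
  | tr e x w z => simp only [Fm.sb, Fm.Holds, SUB_ev_sb]
  | prf e x w z => simp only [Fm.sb, Fm.Holds, SUB_ev_sb]
  | neg φ ih =>
    simp only [Fm.sb, Fm.Holds]
    rw [ih h]
  | imp φ ψ ih1 ih2 =>
    simp only [Fm.sb, Fm.Holds]
    rw [ih1 h.1, ih2 h.2]
  | all j φ ih =>
    by_cases hj : j = i
    · subst hj
      simp only [Fm.sb, if_true, Fm.Holds, Function.update_idem]
    · rcases h with h | h | h
      · exact absurd h hj
      · have h1 : ¬ (Fm.all j φ).free i := fun hh => h hh.2
        rw [SUB_fm_sb h1]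
        refine SUB_holds_congr fun k hk => ?_
        rw [Function.update_of_ne]
        intro hki
        rw [hki] at hk
        exact h1 hk
      · simp only [Fm.sb, if_neg hj, Fm.Holds]
        refine forall_congr' fun b => ?_
        rw [ih h.2, SUB_ev_congr (v := Function.update v j b) (w := v),
          Function.update_comm (Ne.symm hj)]
        intro k hk
        rw [Function.update_of_ne]
        rintro rfl
        exact h.1 hk

theorem SUB_logical {O : Lang} {φ : Fm} (h : Logical φ) : φ.True O := by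
  induction h with
  | k φ ψ => intro v h1 _; exact h1
  | s φ ψ χ => intro v h1 h2 h3; exact h1 h3 (h2 h3)
  | c φ ψ =>
    intro v h1 h2
    by_contra h3
    exact h1 h3 h2
  | inst i φ a h => intro v h1; exact (holds_sb h).2 (h1 _)
  | dist i φ ψ => intro v h1 h2 a; exact h1 a (h2 a)
  | vac i φ h =>
    intro v h1 a
    refine (SUB_holds_congr fun j hj => ?_).1 h1
    rw [Function.update_of_ne]
    rintro rfl
    exact h hj
  | refl t => intro v; rfl
  | leib i φ s t h =>
    intro v h1 h2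
    have hok : ∀ a, φ.Ok i a := by
      intro a
      cases φ <;> simp_all [Fm.Ok, Fm.Atomic]
    have h3 := (holds_sb (hok s)).1 h2
    refine (holds_sb (hok t)).2 ?_
    have h4 : s.ev v = t.ev v := h1
    rwa [← h4]
  | gen i φ h ih => intro v a; exact ih _

theorem sound {O : Lang} {A : Fm → Prop} (hA : ∀ σ, A σ → σ.True O) {φ : Fm}
    (h : Provable A φ) : φ.True O := by
  obtain ⟨l, hl⟩ := h
  have key : ∀ (i : ℕ) (ψ : Fm), (l ++ [φ])[i]? = some ψ → ψ.True O := by
    intro i
    induction i using Nat.strong_induction_on with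
    | _ i ih =>
      intro ψ hψ
      rcases hl i ψ hψ with h | h | ⟨j, k, χ, hj, hk, h1, h2⟩
      · exact SUB_logical h
      · exact hA _ h
      · intro v
        exact ih k hk _ h2 v (ih j hj _ h1 v)
  refine key l.length φ ?_
  simp

end Pool.Agent.RF
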