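import Pool.Agent.Lib_helper78.RF.Params
import Pool.Agent.Lib_helper78.RF.F.SUB

/-!
# Block S12: truth of the axioms of `S^1_2` (MP_5c38ab_lc)
-/

set_option autoImplicit false

namespace Pool.Agent.RF

open Pool.Agent.CK

theorem S12_size_dbl {x : ℕ} (hx : x ≠ 0) : Nat.size (2 * x) = Nat.size x + 1 := by
  have h := Nat.size_bit (b := false) (n := x) (by simpa [Nat.bit] using hx)
  simpa [Nat.bit] using h

theorem S12_size_dbl1 (x : ℕ) : Nat.size (2 * x + 1) = Nat.size x + 1 := by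
  have h := Nat.size_bit (b := true) (n := x) (by simp [Nat.bit])
  simpa [Nat.bit] using h

theorem S12_size_half {x : ℕ} (hx : x ≠ 0) : Nat.size x = Nat.size (x / 2) + 1 := by
  rcases Nat.even_or_odd' x with ⟨c, hc | hc⟩
  · have hc0 : c ≠ 0 := by rintro rfl; simp at hc; exact hx hc
    rw [hc, S12_size_dbl hc0]
    congr 2
    omega
  · rw [hc, S12_size_dbl1]
    congr 2
    omega

theorem basic_true (O : Lang) (φ : Fm) (h : φ ∈ basicAxioms) : φ.True O := by
  intro v
  simp only [basicAxioms, List.mem_cons, List.not_mem_nil, or_false] at h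
  rcases h with h | h | h | h | h | h | h | h | h | h | h | h | h | h | h | h | h | h | h | h |
    h | h | h | h | h | h | h | h | h | h | h | h <;> subst h
  · simp only [Fm.Holds, Tm.ev]; omega
  · simp only [Fm.Holds, Tm.ev]; omega
  · simp only [Fm.Holds, Tm.ev]; omega
  · simp only [Fm.iff, Fm.and, Fm.Holds, Tm.ev]; omega
  · simp only [Fm.Holds, Tm.ev, Tm.dbl]; omega
  · simp only [Fm.or, Fm.Holds, Tm.ev]; omega
  · simp only [Fm.and, Fm.Holds, Tm.ev]; omega
  · simp only [Fm.and, Fm.Holds, Tm.ev]; omega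
  · simp only [Fm.Holds, Tm.ev, Nat.size_zero]
  · simp only [Fm.and, Fm.Holds, Tm.ev, Tm.dbl, zero_add, Nat.reduceAdd, Classical.not_imp, not_not]
    intro hx
    exact ⟨S12_size_dbl hx, S12_size_dbl1 _⟩
  · simp only [Fm.Holds, Tm.ev]; simp
  · simp only [Fm.Holds, Tm.ev]; exact fun h => Nat.size_le_size h
  · simp only [Fm.Holds, Tm.ev]; rw [Nat.size_pow]
  · simp only [Fm.Holds, Tm.ev]; simp
  · simp only [Fm.and, Fm.Holds, Tm.ev, Tm.dbl, zero_add, Nat.reduceAdd, Classical.not_imp, not_not]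
    intro hx
    rw [S12_size_dbl hx, S12_size_dbl1]
    simp [pow_succ, mul_comm]
  · simp only [Fm.Holds, Tm.ev, mul_comm]
  · simp only [Fm.Holds, Tm.ev]; intro h; rw [h]
  · simp only [Fm.Holds, Tm.ev]; intro h; rw [h, ← pow_add, add_mul]
  · simp only [Fm.Holds, Tm.ev]; omega
  · simp only [Fm.and, Fm.Holds, Tm.ev, Tm.dbl]; omega
  · simp only [Fm.Holds, Tm.ev]; omega
  · simp only [Fm.Holds, Tm.ev]; omega
  · simp only [Fm.Holds, Tm.ev]; omega
  · simp only [Fm.Holds, Tm.ev]; omega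
  · simp only [Fm.iff, Fm.and, Fm.Holds, Tm.ev]; omega
  · simp only [Fm.Holds, Tm.ev, mul_zero]
  · simp only [Fm.Holds, Tm.ev, mul_add, mul_one]
  · simp only [Fm.Holds, Tm.ev, mul_comm]
  · simp only [Fm.Holds, Tm.ev, mul_add]
  · simp only [Fm.iff, Fm.and, Fm.Holds, Tm.ev]
    intro h hn
    exact hn (fun h' => Nat.le_of_mul_le_mul_left h' (by omega)) (fun h' => Nat.mul_le_mul_left _ h')
  · simp only [Fm.Holds, Tm.ev]
    exact fun h => S12_size_half h
  · simp only [Fm.iff, Fm.and, Fm.or, Fm.Holds, Tm.ev, Tm.dbl]; omega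

theorem S12_ok {i : ℕ} {a : Tm} (ha : ∀ j, a.has j → j = i) (φ : Fm) : φ.Ok i a := by
  induction φ with
  | neg φ ih => exact ih
  | imp φ ψ ih1 ih2 => exact ⟨ih1, ih2⟩
  | all j φ ih =>
    by_cases hj : j = i
    · exact Or.inl hj
    · exact Or.inr (Or.inr ⟨fun h => hj (ha j h), ih⟩)
  | _ => trivial

theorem S12_pind (O : Lang) (i : ℕ) (φ : Fm) : (pind i φ).True O := by
  intro v h0 h1 a
  have h0' : φ.Holds O (Function.update v i 0) :=
    (holds_sb (S12_ok (i := i) (a := .zero) (fun j hj => False.elim hj) φ)).1 h0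
  have h1' : ∀ a : ℕ, φ.Holds O (Function.update v i (a / 2)) →
      φ.Holds O (Function.update v i a) := by
    intro a ha
    apply h1 a
    rw [holds_sb (S12_ok (i := i) (a := .half (.var i)) (fun j hj => (hj : i = j).symm) φ)]
    simpa [Tm.ev] using ha
  induction a using Nat.strong_induction_on with
  | _ a ih =>
    rcases Nat.eq_zero_or_pos a with rfl | ha
    · exact h0'
    · exact h1' a (ih (a / 2) (Nat.div_lt_self ha (by norm_num)))

theorem S12_gen {O : Lang} {φ σ : Fm} (h : Gen φ σ) (hφ : φ.True O) : σ.True O := by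
  induction h with
  | refl => exact hφ
  | all i ψ _ ih => exact fun v a => ih _

theorem S12_true (O : Lang) (σ : Fm) (h : S12 σ) : σ.True O := by
  obtain ⟨-, φ, hg, hφ⟩ := h
  apply S12_gen hg
  rcases hφ with hφ | ⟨i, ψ, -, rfl⟩
  · exact basic_true O φ hφ
  · exact S12_pind O i ψ

end Pool.Agent.RF
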