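import Pool.Agent.Lib_helper78.RF.Params

/-!
# Block VAL: bijective base 2 numbers and numerals
-/

set_option autoImplicit false

namespace Pool.Agent.RF

open Pool.Agent.CK

theorem VAL_true (l : List Bool) : val (true :: l) = 2 * val l + 2 := by simp [val]

theorem VAL_false (l : List Bool) : val (false :: l) = 2 * val l + 1 := by simp [val]

theorem val_inj : Function.Injective val := by
  intro x
  induction x with
  | nil =>
    intro y h
    cases y with
    | nil => rfl
    | cons b l =>
      exfalso
      cases b
      · rw [VAL_false] at h
        simp [val] at h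
      · rw [VAL_true] at h
        simp [val] at h
  | cons a x ih =>
    intro y h
    cases y with
    | nil =>
      exfalso
      cases a
      · rw [VAL_false] at h
        simp [val] at h
      · rw [VAL_true] at h
        simp [val] at h
    | cons b l =>
      cases a <;> cases b
      · rw [VAL_false, VAL_false] at h
        rw [ih (show val x = val l by omega)]
      · rw [VAL_false, VAL_true] at h
        omega
      · rw [VAL_true, VAL_false] at h
        omega
      · rw [VAL_true, VAL_true] at h
        rw [ih (show val x = val l by omega)]

theorem val_surj : Function.Surjective val := by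
  intro n
  induction n using Nat.strong_induction_on with
  | _ n ih =>
    rcases Nat.eq_zero_or_pos n with h | h
    · exact ⟨[], by simp [val, h]⟩
    · rcases Nat.even_or_odd' n with ⟨m, hm | hm⟩
      · obtain ⟨l, hl⟩ := ih (m - 1) (by omega)
        exact ⟨true :: l, by rw [VAL_true, hl]; omega⟩
      · obtain ⟨l, hl⟩ := ih m (by omega)
        exact ⟨false :: l, by rw [VAL_false, hl]; omega⟩

theorem VAL_bounds (x : List Bool) : 2 ^ x.length ≤ val x + 1 ∧ val x + 2 ≤ 2 ^ (x.length + 1) := by
  induction x with
  | nil => simp [val]
  | cons a x ih =>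
    obtain ⟨h1, h2⟩ := ih
    cases a
    · rw [VAL_false, List.length_cons]
      rw [pow_succ] at h2
      constructor
      · rw [pow_succ]; omega
      · rw [pow_succ, pow_succ]; omega
    · rw [VAL_true, List.length_cons]
      rw [pow_succ] at h2
      constructor
      · rw [pow_succ]; omega
      · rw [pow_succ, pow_succ]; omega

theorem size_val (x : List Bool) :
    x.length ≤ Nat.size (val x) ∧ Nat.size (val x) ≤ x.length + 1 := by
  obtain ⟨h1, h2⟩ := VAL_bounds x
  constructor
  · rcases Nat.eq_zero_or_pos x.length with h | h
    · omega
    · have : x.length - 1 < Nat.size (val x) := by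
        rw [Nat.lt_size]
        have h3 : 2 ^ x.length = 2 * 2 ^ (x.length - 1) := by
          rw [← pow_succ']; congr 1; omega
        have h4 : 1 ≤ 2 ^ (x.length - 1) := Nat.one_le_two_pow
        omega
      omega
  · rw [Nat.size_le]
    omega

theorem VAL_num_even {n : ℕ} (h : n % 2 = 0) :
    num (n + 1) = Tm.succ (Tm.mul (Tm.succ (Tm.succ Tm.zero)) (num (n / 2))) := by
  rw [num, if_pos h]

theorem VAL_num_odd {n : ℕ} (h : ¬ n % 2 = 0) :
    num (n + 1) = Tm.succ (Tm.succ (Tm.mul (Tm.succ (Tm.succ Tm.zero)) (num (n / 2)))) := by
  rw [num, if_neg h]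

theorem VAL_num_zero : num 0 = Tm.zero := by rw [num]

theorem ev_num (v : ℕ → ℕ) (n : ℕ) : (num n).ev v = n := by
  induction n using Nat.strong_induction_on with
  | _ n ih =>
    cases n with
    | zero => rw [VAL_num_zero]; rfl
    | succ n =>
      by_cases h : n % 2 = 0
      · rw [VAL_num_even h]
        simp only [Tm.ev]
        rw [ih (n / 2) (by omega)]
        omega
      · rw [VAL_num_odd h]
        simp only [Tm.ev]
        rw [ih (n / 2) (by omega)]
        omega

theorem num_has (i n : ℕ) : ¬ (num n).has i := by
  induction n using Nat.strong_induction_on with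
  | _ n ih =>
    cases n with
    | zero => rw [VAL_num_zero]; simp [Tm.has]
    | succ n =>
      by_cases h : n % 2 = 0
      · rw [VAL_num_even h]
        simp only [Tm.has, false_or]
        exact ih (n / 2) (by omega)
      · rw [VAL_num_odd h]
        simp only [Tm.has, false_or]
        exact ih (n / 2) (by omega)

theorem VAL_tag_len (k : ℕ) : (tag k).length = k + 1 := by simp [tag]

theorem num_len (n : ℕ) : (num n).enc.length ≤ 24 * Nat.size n + 2 := by
  induction n using Nat.strong_induction_on with
  | _ n ih =>
    cases n with
    | zero => rw [VAL_num_zero]; simp [Tm.enc, VAL_tag_len]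
    | succ n =>
      have hsz : Nat.size (n / 2) + 1 ≤ Nat.size (n + 1) := by
        have h1 : Nat.size (n / 2) ≤ Nat.size (n + 1) - 1 := by
          rw [Nat.size_le]
          have h2 : n + 1 < 2 ^ Nat.size (n + 1) := Nat.lt_size_self (n + 1)
          have h3 : 0 < Nat.size (n + 1) := Nat.size_pos.2 (Nat.succ_pos n)
          have h4 : 2 ^ Nat.size (n + 1) = 2 * 2 ^ (Nat.size (n + 1) - 1) := by
            rw [← pow_succ']; congr 1; omega
          omega
        have h3 : 0 < Nat.size (n + 1) := Nat.size_pos.2 (Nat.succ_pos n)
        omega
      have hi := ih (n / 2) (by omega)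
      by_cases h : n % 2 = 0
      · rw [VAL_num_even h]
        simp only [Tm.enc, List.length_append, VAL_tag_len]
        omega
      · rw [VAL_num_odd h]
        simp only [Tm.enc, List.length_append, VAL_tag_len]
        omega

end Pool.Agent.RF
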