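import Pool.Agent.Lib_helper78.RF.Params
import Pool.Agent.Lib_helper78.RF.F.ENC
import Pool.Agent.Lib_helper78.RF.F.VAL

/-!
# Block SEM: the meaning of the sentences
-/

set_option autoImplicit false

namespace Pool.Agent.RF

open Pool.Agent.CK

theorem SEM_size_clk (v : ℕ → ℕ) (k : ℕ) (t : Tm) :
    Nat.size ((clk k t).ev v) = clkS k (Nat.size (t.ev v)) := by
  induction k with
  | zero => simp [clk, Tm.ev, clkS]
  | succ k ih =>
    have h1 : Nat.size ((0 + 1 + 1) * ((0 + 1 + 1) * t.ev v + 1) + 1) = Nat.size (t.ev v) + 2 := by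
      have h2 : (0 + 1 + 1) * ((0 + 1 + 1) * t.ev v + 1) + 1 =
          Nat.bit true (Nat.bit true (t.ev v)) := by
        simp only [Nat.bit, cond_true]
      rw [h2, Nat.size_bit (by simp [Nat.bit]), Nat.size_bit (by simp [Nat.bit])]
    simp only [clk, Tm.ev, clkS]
    rw [h1, Nat.size_pow, ih]

theorem SEM_and (O : Lang) (v : ℕ → ℕ) (φ ψ : Fm) :
    (Fm.and φ ψ).Holds O v ↔ φ.Holds O v ∧ ψ.Holds O v := by
  simp only [Fm.and, Fm.Holds]
  tauto

theorem SEM_Pr (O : Lang) (v : ℕ → ℕ) (T : Th) (a b : Tm) :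
    (Pr T a b).Holds O v ↔ ∃ (l : List Fm) (φ : Fm), val (pEnc (l ++ [φ])) = a.ev v ∧
      val φ.enc = b.ev v ∧ TProof O T (l ++ [φ]) := by
  simp only [Pr, Fm.Holds, PrfRel, ev_num, SEM_size_clk, TProof]
  constructor
  · rintro ⟨c, l, φ, h1, h2, h3, h4⟩
    have h5 : c = T.1 := cEnc_inj (val_inj h1)
    subst h5
    refine ⟨l, φ, h2, h3, ?_⟩
    rw [h2]
    exact h4
  · rintro ⟨l, φ, h2, h3, h4⟩
    refine ⟨T.1, l, φ, rfl, h2, h3, ?_⟩
    rw [h2] at h4
    exact h4

theorem SEM_mu (O : Lang) (v : ℕ → ℕ) (e x z : Tm)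
    (he : ∀ b, e.ev (Function.update v 4 b) = e.ev v)
    (hx : ∀ b, x.ev (Function.update v 4 b) = x.ev v)
    (hz : ∀ b, z.ev (Function.update v 4 b) = z.ev v) :
    (mu e x z).Holds O v ↔ MuT O (e.ev v) (x.ev v) (z.ev v) := by
  simp only [mu, MuT]
  have h1 : ∀ b, (Fm.and (Fm.le (Tm.var 4) z) (Fm.tr e x (Tm.var 4) z)).Holds O
      (Function.update v 4 b) ↔ b ≤ z.ev v ∧ TrRel O (e.ev v) (x.ev v) b (z.ev v) := by
    intro b
    rw [SEM_and]
    simp only [Fm.Holds, Tm.ev, he, hx, hz, Function.update_self]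
  constructor
  · intro h
    have h2 : ¬ ∀ b, ¬ (Fm.and (Fm.le (Tm.var 4) z) (Fm.tr e x (Tm.var 4) z)).Holds O
      (Function.update v 4 b) := h
    push Not at h2
    obtain ⟨b, hb⟩ := h2
    exact ⟨b, ((h1 b).1 hb).1, ((h1 b).1 hb).2⟩
  · rintro ⟨b, hb1, hb2⟩ h
    exact h b ((h1 b).2 ⟨hb1, hb2⟩)

theorem holds_mu (O : Lang) (v : ℕ → ℕ) (e x z : ℕ) :
    (mu (num e) (num x) (num z)).Holds O v ↔ MuT O e x z := by
  rw [SEM_mu O v _ _ _ (fun b => by rw [ev_num, ev_num]) (fun b => by rw [ev_num, ev_num])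
    (fun b => by rw [ev_num, ev_num]), ev_num, ev_num, ev_num]

theorem SEM_last (a b : List Fm) (φ ψ : Fm) (h : φ = ψ) (hab : a ++ [φ] = b ++ [ψ]) : a = b :=
  (List.append_left_inj [φ]).1 (by rw [hab, h])

theorem SEM_enc {φ ψ : Fm} (h : φ.enc = ψ.enc) : φ = ψ :=
  (enc_inj (a := []) (b := []) (by rw [List.append_nil, List.append_nil, h])).1

theorem holds_RFN (O : Lang) (v : ℕ → ℕ) (T : Th) (n : ℕ) :
    (RFN T n).Holds O v ↔ RfnT O T n := by
  have key : (RFN T n).Holds O v ↔ ∀ e u x z : ℕ, (Nat.size e ≤ n ∧ Nat.size u ≤ n ∧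
      Nat.size x ≤ n ∧ Nat.size z ≤ n ∧ ∃ (l : List Fm) (φ : Fm), val (pEnc (l ++ [φ])) = u ∧
      val φ.enc = gmu e x z ∧ TProof O T (l ++ [φ])) → MuT O e x z := by
    show (∀ e u x z : ℕ, _ → _) ↔ _
    refine forall_congr' fun e => forall_congr' fun u => forall_congr' fun x =>
      forall_congr' fun z => ?_
    set w := Function.update (Function.update (Function.update (Function.update v 0 e) 1 u) 2 x) 3 z
      with hw
    have h0 : w 0 = e := by simp [hw]
    have h1 : w 1 = u := by simp [hw]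
    have h2 : w 2 = x := by simp [hw]
    have h3 : w 3 = z := by simp [hw]
    rw [SEM_and, SEM_and, SEM_and, SEM_and, SEM_Pr, SEM_mu O w (Tm.var 0) (Tm.var 2) (Tm.var 3)
      (fun b => by simp [Tm.ev]) (fun b => by simp [Tm.ev]) (fun b => by simp [Tm.ev])]
    simp only [Fm.Holds, Tm.ev, ev_num, h0, h1, h2, h3]
  rw [key]
  constructor
  · intro h e x z l he hx hz hu hl
    exact h e _ x z ⟨he, hu, hx, hz, l, _, rfl, rfl, hl⟩
  · rintro h e u x z ⟨he, hu, hx, hz, l, φ, h1, h2, h3⟩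
    have h4 : φ = mu (num e) (num x) (num z) := SEM_enc (val_inj h2)
    subst h4
    exact h e x z l he hx hz (by rw [h1]; exact hu) h3

theorem holds_Con (O : Lang) (v : ℕ → ℕ) (T : Th) (n : ℕ) :
    (Con T n).Holds O v ↔ ConT O T n := by
  have key : (Con T n).Holds O v ↔ ∀ u : ℕ, Nat.size u ≤ n → ¬ ∃ (l : List Fm) (φ : Fm),
      val (pEnc (l ++ [φ])) = u ∧ val φ.enc = val falsum.enc ∧ TProof O T (l ++ [φ]) := by
    show (∀ u : ℕ, _ → ¬ (Pr T (Tm.var 1) (num (val falsum.enc))).Holds O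
      (Function.update v 1 u)) ↔ _
    refine forall_congr' fun u => ?_
    rw [SEM_Pr]
    simp only [Fm.Holds, Tm.ev, ev_num, Function.update_self]
  rw [key]
  constructor
  · intro h l hu hl
    exact h _ hu ⟨l, _, rfl, rfl, hl⟩
  · rintro h u hu ⟨l, φ, h1, h2, h3⟩
    have h4 : φ = falsum := SEM_enc (val_inj h2)
    subst h4
    exact h l (by rw [h1]; exact hu) h3

theorem SEM_clk_has {i k : ℕ} {t : Tm} (h : (clk k t).has i) : t.has i := by
  induction k with
  | zero => simp [clk, Tm.has] at h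
  | succ k ih =>
    simp only [clk, Tm.has] at h
    rcases h with h | h
    · exact ih h
    · tauto

theorem closed_mu (e x z : ℕ) : (mu (num e) (num x) (num z)).Closed := by
  intro i h
  simp only [mu, Fm.and, Fm.free, Tm.has, num_has] at h
  tauto

theorem closed_RFN (T : Th) (n : ℕ) : (RFN T n).Closed := by
  intro i h
  simp only [RFN, mu, Pr, Fm.and, Fm.free, Tm.has, num_has] at h
  have h1 : (clk T.2 (Tm.var 1)).has i → (1 = i) := fun h => SEM_clk_has h
  tauto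

theorem closed_Con (T : Th) (n : ℕ) : (Con T n).Closed := by
  intro i h
  simp only [Con, Pr, Fm.free, Tm.has, num_has] at h
  have h1 : (clk T.2 (Tm.var 1)).has i → (1 = i) := fun h => SEM_clk_has h
  tauto

theorem SEM_num_inj {n m : ℕ} (h : num n = num m) : n = m := by
  rw [← ev_num (fun _ => 0) n, h, ev_num]

theorem SEM_clk_inj {k k' : ℕ} {t : Tm} (h : clk k t = clk k' t) : k = k' := by
  induction k generalizing k' with
  | zero =>
    cases k' with
    | zero => rfl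
    | succ k' => simp [clk] at h
  | succ k ih =>
    cases k' with
    | zero => simp [clk] at h
    | succ k' =>
      simp only [clk, Tm.smash.injEq, and_true] at h
      rw [ih h]

theorem RFN_inj {T T' : Th} {n n' : ℕ} (h : RFN T n = RFN T' n') : T = T' ∧ n = n' := by
  simp only [RFN, Pr, Fm.and, Fm.all.injEq, Fm.imp.injEq, Fm.neg.injEq, Fm.le.injEq,
    Fm.prf.injEq, true_and, and_true] at h
  have h1 : n = n' := SEM_num_inj h.1
  have h2 : T.1 = T'.1 := cEnc_inj (val_inj (SEM_num_inj h.2.2.2.2.1))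
  have h3 : T.2 = T'.2 := SEM_clk_inj h.2.2.2.2.2
  exact ⟨Prod.ext h2 h3, h1⟩

theorem Con_inj {T T' : Th} {n n' : ℕ} (h : Con T n = Con T' n') : T = T' ∧ n = n' := by
  simp only [Con, Pr, Fm.all.injEq, Fm.imp.injEq, Fm.neg.injEq, Fm.le.injEq,
    Fm.prf.injEq, true_and, and_true] at h
  have h1 : n = n' := SEM_num_inj h.1
  have h2 : T.1 = T'.1 := cEnc_inj (val_inj (SEM_num_inj h.2.1))
  have h3 : T.2 = T'.2 := SEM_clk_inj h.2.2
  exact ⟨Prod.ext h2 h3, h1⟩

end Pool.Agent.RF
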