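import Pool.Agent.Lib_helper78.RF.Params
import Pool.Agent.Lib_helper78.RF.F.ENC
import Pool.Agent.Lib_helper78.RF.F.PRG
import Pool.Agent.Lib_helper78.RF.F.PRV
import Pool.Agent.Lib_helper78.RF.F.S12
import Pool.Agent.Lib_helper78.RF.F.SEM

/-!
# RF block BEX (MP_5c38ab_lc): a base theory exists
-/

set_option autoImplicit false

namespace Pool.Agent.RF

open Pool.Agent.CK

theorem bex_neg_mu {O : Lang} {e x z : ℕ} (h : ¬ (mu (num e) (num x) (num z)).True O) :
    ¬ MuT O e x z := fun h' => h fun v => (holds_mu O v e x z).2 h'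

theorem bex_neg_rfn {O : Lang} {T : Th} {n : ℕ} (h : ¬ (RFN T n).True O) : ¬ RfnT O T n :=
  fun h' => h fun v => (holds_RFN O v T n).2 h'

theorem bex_enc {σ τ : Fm} (h : σ.enc = τ.enc) : σ = τ := by
  have h' : σ.enc ++ [] = τ.enc ++ [] := by rw [h]
  exact (enc_inj h').1

theorem bex_push (O : Lang) (x : List Bool) (t : ℕ) :
    run O (Cmd.push 0 false) x [] (t + 1) =
      ([], Function.update (init x []) 0 (false :: init x [] 0)) := by
  unfold run
  rw [Function.iterate_succ_apply]
  have h1 : step O ([Cmd.push 0 false], init x []) =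
      ([], Function.update (init x []) 0 (false :: init x [] 0)) := rfl
  rw [h1]
  induction t with
  | zero => rfl
  | succ t ih => rw [Function.iterate_succ_apply]; exact ih

theorem bex_halts (O : Lang) (x : List Bool) :
    Halts O (Cmd.push 0 false) x [] ((x.length + 2) ^ 1) := by
  rw [pow_one]
  unfold Halts
  rw [show x.length + 2 = (x.length + 1) + 1 from rfl, bex_push]

theorem bex_not_accepts (O : Lang) (x : List Bool) :
    ¬ Accepts O (Cmd.push 0 false) x [] ((x.length + 2) ^ 1) := by
  rw [pow_one]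
  unfold Accepts
  rw [show x.length + 2 = (x.length + 1) + 1 from rfl, bex_push]
  rintro ⟨-, h⟩
  simp at h

theorem base_exists {O : Lang} {g : ℕ → ℕ}
    (h : ∀ s, O (true :: true :: false :: s) = true ↔ BaseP g O s) :
    ∃ B, Base O B ∧ ∀ σ, S12 σ → B σ := by
  refine ⟨fun σ => O (true :: true :: false :: σ.enc) = true, ?_, ?_⟩
  · refine
      { closed := ?_
        isTrue := ?_
        dec := ?_
        refMu := ?_
        refRFN := ?_ }
    · intro σ hσ
      rcases (h _).1 hσ with ⟨τ, h1, h2⟩ | ⟨e, x, z, m, h1, -, -⟩ | ⟨T, n, m, h1, -, -⟩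
      · rw [bex_enc h1]; exact h2.1
      · rw [bex_enc h1, pad_closed]; exact closed_mu e x z
      · rw [bex_enc h1, pad_closed]; exact closed_RFN T n
    · intro σ hσ
      rcases (h _).1 hσ with ⟨τ, h1, h2⟩ | ⟨e, x, z, m, h1, -, h2⟩ | ⟨T, n, m, h1, -, h2⟩
      · rw [bex_enc h1]; exact S12_true O τ h2
      · rw [bex_enc h1, pad_true]
        intro v hv
        exact h2 ((holds_mu O v e x z).1 hv)
      · rw [bex_enc h1, pad_true]
        intro v hv
        exact h2 ((holds_RFN O v T n).1 hv)
    · refine ⟨(orAsk [true, true, false] (Cmd.push 0 false), exAsk [true, true, false] 1), ?_, ?_⟩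
      · intro x
        exact (orAsk_spec (bex_halts O) x).1
      · intro σ
        unfold Ax
        have h1 := (orAsk_spec (τ := [true, true, false]) (bex_halts O) σ.enc).2
        refine h1.trans ⟨fun h2 => ?_, fun h2 => Or.inl h2⟩
        rcases h2 with h2 | h2
        · exact h2
        · exact absurd h2 (bex_not_accepts O σ.enc)
    · intro e x z hf
      refine pad_proof (m := g (Nat.size x + 2 * Nat.size z + 1)) ?_ |>.imp fun l hl => hl.1
      exact (h _).2 (Or.inr (Or.inl ⟨e, x, z, _, rfl, le_rfl, bex_neg_mu hf⟩))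
    · intro T n hf
      refine pad_proof (m := g (Dep T.2 n)) ?_ |>.imp fun l hl => hl.1
      exact (h _).2 (Or.inr (Or.inr ⟨T, n, _, rfl, le_rfl, bex_neg_rfn hf⟩))
  · intro σ hσ
    exact (h _).2 (Or.inl ⟨σ, rfl, hσ⟩)

end Pool.Agent.RF
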