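import Pool.Agent.Lib_helper78.RF.Params
import Pool.Agent.Lib_helper78.RF.F.PRV
import Pool.Agent.Lib_helper78.RF.F.SEM
import Pool.Agent.Lib_helper78.RF.F.VAL

set_option autoImplicit false

namespace Pool.Agent.RF

open Pool.Agent.CK

theorem DEP_clkS_mono (k : ℕ) {m m' : ℕ} (h : m ≤ m') : clkS k m ≤ clkS k m' := by
  induction k with
  | zero => exact le_rfl
  | succ k ih =>
    unfold clkS
    have := Nat.mul_le_mul ih (Nat.add_le_add_right h 2)
    omega

theorem DEP_clkS_le (k m : ℕ) : clkS k m ≤ (m + 3) ^ k := by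
  induction k with
  | zero => simp [clkS]
  | succ k ih =>
    unfold clkS
    have h1 : 1 ≤ (m + 3) ^ k := Nat.one_le_pow _ _ (by omega)
    have h2 : (m + 3) ^ (k + 1) = (m + 3) ^ k * (m + 2) + (m + 3) ^ k := by ring
    have h3 := Nat.mul_le_mul_right (m + 2) ih
    omega

theorem dep_mono {k n n' : ℕ} (h : n ≤ n') : Dep k n ≤ Dep k n' := by
  unfold Dep
  have := DEP_clkS_mono k h
  omega

theorem le_dep (k n : ℕ) : n ≤ Dep k n := by
  unfold Dep
  omega

theorem clk_dep (k n : ℕ) : clkS k n ≤ Dep k n := by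
  unfold Dep
  omega

theorem dep_poly (k n : ℕ) : Dep k n ≤ (n + 4) ^ (k + 2) := by
  unfold Dep
  have h1 := DEP_clkS_le k n
  have h2 : (n + 3) ^ k ≤ (n + 4) ^ k := Nat.pow_le_pow_left (by omega) k
  have h3 : 1 ≤ (n + 4) ^ k := Nat.one_le_pow _ _ (by omega)
  have h4 : (n + 4) ^ (k + 2) = (n + 4) ^ 2 * (n + 4) ^ k := by ring
  have h5 : (n + 4) ^ 2 * (n + 4) ^ k = (n ^ 2 + 5 * n + 14) * (n + 4) ^ k +
      (3 * n + 1) * (n + 4) ^ k + (n + 4) ^ k := by ring
  have h6 : 3 * n + 1 ≤ (3 * n + 1) * (n + 4) ^ k := Nat.le_mul_of_pos_right _ (by omega)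
  rw [h4, h5]
  omega

theorem clkS_ge (k m : ℕ) : (m + 2) ^ k ≤ clkS k m := by
  induction k with
  | zero => simp [clkS]
  | succ k ih =>
    unfold clkS
    have h3 := Nat.mul_le_mul_right (m + 2) ih
    have h2 : (m + 2) ^ (k + 1) = (m + 2) ^ k * (m + 2) := by ring
    omega

theorem DEP_run_congr {O O' : Lang} {c : Cmd} {x y : List Bool} {t N : ℕ}
    (hx : x.length + t ≤ N) (hy : y.length + t ≤ N) (h : Agree N O O') :
    run O c x y t = run O' c x y t := by
  unfold run
  rw [← mach_eval_runTree, ← mach_eval_runTree]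
  refine DT.eval_congr _ _ (mach_allQ_runTree t _ (max x.length y.length) N
    (mach_init_len x y _ (le_max_left _ _) (le_max_right _ _)) ?_) h
  rcases le_total x.length y.length with h1 | h1
  · rw [max_eq_right h1]; exact hy
  · rw [max_eq_left h1]; exact hx

/-- if `O` and `O'` agree on all strings of length `< N`, `N ≥` inputs + time -/
theorem accepts_congr {O O' : Lang} {c : Cmd} {x y : List Bool} {t N : ℕ}
    (hx : x.length + t ≤ N) (hy : y.length + t ≤ N) (h : Agree N O O') :
    Accepts O c x y t ↔ Accepts O' c x y t := by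
  unfold Accepts
  rw [DEP_run_congr hx hy h]

theorem DEP_agree_mono {N N' : ℕ} {O O' : Lang} (hN : N' ≤ N) (h : Agree N O O') :
    Agree N' O O' := fun x hx => h x (lt_of_lt_of_le hx hN)

theorem DEP_agree_symm {N : ℕ} {O O' : Lang} (h : Agree N O O') : Agree N O' O :=
  fun x hx => (h x hx).symm

theorem MuT_congr {O O' : Lang} {e x z : ℕ} (h : Agree (Nat.size x + 2 * Nat.size z + 1) O O') :
    MuT O e x z ↔ MuT O' e x z := by
  have key : ∀ {O O' : Lang}, Agree (Nat.size x + 2 * Nat.size z + 1) O O' →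
      MuT O e x z → MuT O' e x z := by
    rintro O O' h ⟨w, hw, c, a, b, hc, ha, hb, hacc⟩
    refine ⟨w, hw, c, a, b, hc, ha, hb, ?_⟩
    have h1 := (size_val a).1
    have h2 := (size_val b).1
    rw [ha] at h1
    rw [hb] at h2
    have h3 : Nat.size w ≤ Nat.size z := Nat.size_le_size hw
    exact (accepts_congr (by omega) (by omega) h).1 hacc
  exact ⟨key h, key (DEP_agree_symm h)⟩

theorem DEP_mem_len {l : List Fm} {σ : Fm} (h : σ ∈ l) : σ.enc.length ≤ (pEnc l).length := by
  unfold pEnc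
  induction l with
  | nil => exact absurd h List.not_mem_nil
  | cons φ l ih =>
    rw [List.map_cons, List.flatten_cons, List.length_append]
    rcases List.mem_cons.1 h with h | h
    · subst h; omega
    · have := ih h; omega

theorem DEP_tproof_congr {O O' : Lang} {T : Th} {n : ℕ} {l : List Fm}
    (h : Agree (Dep T.2 n) O O') (hl : Nat.size (val (pEnc l)) ≤ n) (hp : TProof O T l) :
    TProof O' T l := by
  unfold TProof at hp ⊢
  refine isProof_mono (fun σ hσ hA => ?_) hp
  have h1 := DEP_mem_len hσ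
  have h2 := (size_val (pEnc l)).1
  have h3 := DEP_clkS_mono T.2 hl
  refine (accepts_congr ?_ ?_ h).1 hA
  · unfold Dep; omega
  · unfold Dep; simp only [List.length_nil]; omega

theorem RfnT_congr {O O' : Lang} {T : Th} {n : ℕ} (h : Agree (Dep T.2 n) O O') :
    RfnT O T n ↔ RfnT O' T n := by
  have key : ∀ {O O' : Lang}, Agree (Dep T.2 n) O O' → RfnT O T n → RfnT O' T n := by
    intro O O' h hR e x z l he hx hz hl hp
    have h1 := hR e x z l he hx hz hl (DEP_tproof_congr (DEP_agree_symm h) hl hp)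
    refine (MuT_congr (DEP_agree_mono ?_ h)).1 h1
    unfold Dep
    omega
  exact ⟨key h, key (DEP_agree_symm h)⟩

theorem ConT_congr {O O' : Lang} {T : Th} {n : ℕ} (h : Agree (Dep T.2 n) O O') :
    ConT O T n ↔ ConT O' T n := by
  have key : ∀ {O O' : Lang}, Agree (Dep T.2 n) O O' → ConT O T n → ConT O' T n := by
    intro O O' h hR l hl hp
    exact hR l hl (DEP_tproof_congr (DEP_agree_symm h) hl hp)
  exact ⟨key h, key (DEP_agree_symm h)⟩

theorem RfnT_anti {O : Lang} {T : Th} {n n' : ℕ} (h : n ≤ n') (h' : RfnT O T n') :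
    RfnT O T n := fun e x z l he hx hz hl hp =>
  h' e x z l (he.trans h) (hx.trans h) (hz.trans h) (hl.trans h) hp

theorem ConT_anti {O : Lang} {T : Th} {n n' : ℕ} (h : n ≤ n') (h' : ConT O T n') :
    ConT O T n := fun l hl => h' l (hl.trans h)

theorem DEP_run_add {O : Lang} {c : Cmd} {x y : List Bool} {t : ℕ} (h : Halts O c x y t)
    (u : ℕ) : run O c x y (t + u) = run O c x y t := by
  unfold Halts at h
  unfold run at h ⊢
  rw [Nat.add_comm, Function.iterate_add_apply]
  rcases hc : (step O)^[t] ([c], init x y) with ⟨k, s⟩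
  rw [hc] at h
  change k = [] at h
  subst h
  exact prog1_iter_nil O s u

theorem accepts_mono {O : Lang} {c : Cmd} {x y : List Bool} {t t' : ℕ} (ht : t ≤ t')
    (h : Accepts O c x y t) : Accepts O c x y t' := by
  obtain ⟨u, rfl⟩ := Nat.exists_eq_add_of_le ht
  unfold Accepts
  rw [DEP_run_add h.1 u]
  exact h

theorem accepts_of_halts {O : Lang} {c : Cmd} {x y : List Bool} {t t' : ℕ}
    (h : Halts O c x y t) (h' : Accepts O c x y t') : Accepts O c x y t := by
  rcases le_total t' t with ht | ht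
  · exact accepts_mono ht h'
  · obtain ⟨u, rfl⟩ := Nat.exists_eq_add_of_le ht
    unfold Accepts at h' ⊢
    rw [DEP_run_add h u] at h'
    exact h'

theorem DEP_tproof_ax {O : Lang} {B : Fm → Prop} {T : Th} (hT : InT O B T) {l : List Fm} {φ : Fm}
    (hp : TProof O T (l ++ [φ])) : Provable (Ax O T) φ := by
  refine ⟨l, isProof_mono (fun σ _ hA => ?_) hp⟩
  exact accepts_of_halts (hT.halts σ.enc) hA

theorem inT_rfnT {O : Lang} {B : Fm → Prop} {T : Th} (hB : Base O B) (hT : InT O B T) (n : ℕ) :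
    RfnT O T n := by
  intro e x z l _ _ _ _ hp
  by_contra hM
  have h1 : Provable (Ax O T) (mu (num e) (num x) (num z)) := DEP_tproof_ax hT hp
  have h2 : ¬ (mu (num e) (num x) (num z)).True O := fun h =>
    hM ((holds_mu O (fun _ => 0) e x z).1 (h _))
  exact hT.cons (prv_bot h1 (prv_mono hT.ext (hB.refMu e x z h2)))

theorem inT_conT {O : Lang} {B : Fm → Prop} {T : Th} (hT : InT O B T) (n : ℕ) :
    ConT O T n := by
  intro l _ hp
  exact hT.cons (DEP_tproof_ax hT hp)

end Pool.Agent.RF
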