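import Pool.Agent.Lib_helper78.RF.Params

set_option autoImplicit false

/-!
# MKO: oracles defined by recursion on the length
-/

namespace Pool.Agent.RF

open Pool.Agent.CK

theorem MKO_step {R : Lang → List Bool → Bool} (hR : Local R) (Y : Lang) {t : ℕ} {O O' : Lang}
    (h : Agree t O O') : Agree (t + 1) (stepO R Y O) (stepO R Y O') := by
  intro x hx
  unfold stepO
  by_cases hh : x.head? = some false
  · rw [if_pos hh, if_pos hh]
  · rw [if_neg hh, if_neg hh]
    exact hR x O O' (fun y hy => h y (by omega))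

theorem MKO_iter {R : Lang → List Bool → Bool} (hR : Local R) (Y : Lang) (O O' : Lang) (t : ℕ) :
    Agree t ((stepO R Y)^[t] O) ((stepO R Y)^[t] O') := by
  induction t with
  | zero => intro x hx; omega
  | succ t ih =>
    rw [Function.iterate_succ_apply', Function.iterate_succ_apply']
    exact MKO_step hR Y ih

theorem MKO_iter_le {R : Lang → List Bool → Bool} (hR : Local R) (Y : Lang) (O : Lang)
    {t t' : ℕ} (h : t ≤ t') : Agree t ((stepO R Y)^[t] O) ((stepO R Y)^[t'] O) := by
  obtain ⟨k, rfl⟩ := Nat.exists_eq_add_of_le h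
  rw [Function.iterate_add_apply]
  exact MKO_iter hR Y _ _ t

theorem MKO_at {R : Lang → List Bool → Bool} (hR : Local R) (Y : Lang) (x : List Bool) {N : ℕ}
    (h : x.length < N) : mkO R Y x = (stepO R Y)^[N] (fun _ => false) x :=
  MKO_iter_le hR Y _ (Nat.succ_le_of_lt h) x (Nat.lt_succ_self _)

theorem mkO_eq {R : Lang → List Bool → Bool} (hR : Local R) (Y : Lang) (x : List Bool) :
    mkO R Y x = if x.head? = some false then Y x else R (mkO R Y) x := by
  have h1 : mkO R Y x = stepO R Y ((stepO R Y)^[x.length] (fun _ => false)) x := by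
    rw [MKO_at hR Y x (Nat.lt_succ_self _), Function.iterate_succ_apply']
  rw [h1]
  unfold stepO
  by_cases hh : x.head? = some false
  · rw [if_pos hh, if_pos hh]
  · rw [if_neg hh, if_neg hh]
    refine hR x _ _ (fun y hy => ?_)
    exact (MKO_at hR Y y hy).symm

theorem mkO_agree {R : Lang → List Bool → Bool} (hR : Local R) {Y Y' : Lang} {N : ℕ}
    (h : Agree N Y Y') : Agree N (mkO R Y) (mkO R Y') := by
  have key : ∀ m, m ≤ N → Agree m (mkO R Y) (mkO R Y') := by
    intro m
    induction m with
    | zero => intro _ x hx; omega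
    | succ m ih =>
      intro hm x hx
      have ih' := ih (by omega)
      rw [mkO_eq hR, mkO_eq hR]
      by_cases hh : x.head? = some false
      · rw [if_pos hh, if_pos hh]
        exact h x (by omega)
      · rw [if_neg hh, if_neg hh]
        exact hR x _ _ (fun y hy => ih' y (by omega))
  exact key N le_rfl

theorem stage_lemma {R : Lang → List Bool → Bool} (hR : Local R) (b : ℕ → ℕ) (hb : StrictMono b)
    (Q : ℕ → Lang → Prop)
    (hQ : ∀ s O O', Agree (b (s + 1)) O O' → Q s O → Q s O')
    (hstep : ∀ (s : ℕ) (Y : Lang), (∀ x : List Bool, b s ≤ x.length → Y x = false) →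
      ∃ Y' : Lang, Agree (b s) Y Y' ∧ (∀ x : List Bool, b (s + 1) ≤ x.length → Y' x = false) ∧
        Q s (mkO R Y')) :
    ∃ Y : Lang, ∀ s, Q s (mkO R Y) := by
  choose F hF1 hF2 hF3 using hstep
  let seq : (s : ℕ) → {Y : Lang // ∀ x : List Bool, b s ≤ x.length → Y x = false} := fun s =>
    Nat.rec ⟨fun _ => false, fun _ _ => rfl⟩ (fun s Y => ⟨F s Y.1 Y.2, hF2 s Y.1 Y.2⟩) s
  have hs1 : ∀ s, Agree (b s) (seq s).1 (seq (s + 1)).1 := fun s => hF1 s (seq s).1 (seq s).2
  have hs3 : ∀ s, Q s (mkO R (seq (s + 1)).1) := fun s => hF3 s (seq s).1 (seq s).2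
  have hle : ∀ s k, Agree (b s) (seq s).1 (seq (s + k)).1 := by
    intro s k
    induction k with
    | zero => intro x _; rfl
    | succ k ih =>
      intro x hx
      rw [ih x hx]
      exact hs1 (s + k) x (lt_of_lt_of_le hx (hb.monotone (Nat.le_add_right s k)))
  have hle' : ∀ s s', s ≤ s' → Agree (b s) (seq s).1 (seq s').1 := by
    intro s s' h
    obtain ⟨k, rfl⟩ := Nat.exists_eq_add_of_le h
    exact hle s k
  refine ⟨fun x => (seq (x.length + 1)).1 x, fun s => ?_⟩
  refine hQ s _ _ (mkO_agree hR (Y := (seq (s + 1)).1) ?_) (hs3 s)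
  intro x hx
  change (seq (s + 1)).1 x = (seq (x.length + 1)).1 x
  rcases le_total (x.length + 1) (s + 1) with h | h
  · refine (hle' _ _ h x ?_).symm
    have := hb.id_le (x.length + 1)
    simp only [id] at this
    omega
  · exact hle' _ _ h x hx

end Pool.Agent.RF
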