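import Pool.Agent.Lib_helper78.RF.Params
import Pool.Agent.Lib_helper78.RF.F.DEP
import Pool.Agent.Lib_helper78.RF.F.PRV

/-!
# Block REG: locality of the operators (MP_5c38ab_lc)
-/

set_option autoImplicit false

namespace Pool.Agent.RF

open Pool.Agent.CK

theorem REG_agree_mono {N N' : ℕ} {O O' : Lang} (h : N ≤ N') (hA : Agree N' O O') :
    Agree N O O' := fun x hx => hA x (lt_of_lt_of_le hx h)

theorem REG_agree_symm {N : ℕ} {O O' : Lang} (hA : Agree N O O') :
    Agree N O' O := fun x hx => (hA x hx).symm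

theorem REG_lt_pad (m : ℕ) (φ : Fm) : m < (pad m φ).enc.length := by
  rw [pad_len]; omega

theorem REG_base_imp {g : ℕ → ℕ} {O O' : Lang} {s : List Bool}
    (H : ∀ L, g L < s.length → Agree L O O') (h : BaseP g O s) : BaseP g O' s := by
  rcases h with ⟨σ, hs, hσ⟩ | ⟨e, x, z, m, hs, hm, hM⟩ | ⟨T, n, m, hs, hm, hR⟩
  · exact Or.inl ⟨σ, hs, hσ⟩
  · refine Or.inr (Or.inl ⟨e, x, z, m, hs, hm, ?_⟩)
    have hl : m < s.length := by rw [hs]; exact REG_lt_pad _ _
    rwa [← MuT_congr (H _ (lt_of_le_of_lt hm hl))]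
  · refine Or.inr (Or.inr ⟨T, n, m, hs, hm, ?_⟩)
    have hl : m < s.length := by rw [hs]; exact REG_lt_pad _ _
    rwa [← RfnT_congr (H _ (lt_of_le_of_lt hm hl))]

theorem REG_base_iff {g : ℕ → ℕ} {O O' : Lang} {s : List Bool}
    (H : ∀ L, g L < s.length → Agree L O O') : BaseP g O s ↔ BaseP g O' s :=
  ⟨REG_base_imp H, REG_base_imp (fun L hL => REG_agree_symm (H L hL))⟩

theorem reg_local {C : Lang → List Bool → Prop} {g : ℕ → ℕ} {E : List Bool → Prop}
    (hC : ∀ (s : List Bool) (O O' : Lang), Agree (s.length + 2) O O' → (C O s ↔ C O' s))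
    (hg : ∀ L, L ≤ g L) : Local (reg C g E) := by
  intro x O O' h
  match x, h with
  | true :: false :: s, h =>
    have := hC s O O' h
    simp only [reg]
    exact decide_eq_decide.2 this
  | true :: true :: false :: s, h =>
    have : BaseP g O s ↔ BaseP g O' s := by
      apply REG_base_iff
      intro L hL
      refine REG_agree_mono ?_ h
      have := hg L
      simp only [List.length_cons]
      omega
    simp only [reg]
    exact decide_eq_decide.2 this
  | true :: true :: true :: s, h => rfl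
  | [], h => rfl
  | [true], h => rfl
  | [true, true], h => rfl
  | false :: s, h => rfl

theorem REG_codeA {n : ℕ → ℕ} {O O' : Lang} {s : List Bool} (h : Agree (s.length + 2) O O')
    (hc : CodeA n O s) : CodeA n O' s := by
  obtain ⟨T, m, k, hs, hd, hi, hk⟩ := hc
  refine ⟨T, m, k, hs, hd, hi, fun k' hk' => ?_⟩
  have hl : m < s.length := by rw [hs]; exact REG_lt_pad _ _
  have := dep_mono (k := T.2) hk'
  rw [← RfnT_congr (REG_agree_mono (by omega) h)]
  exact hk k' hk'

theorem REG_codeB {O O' : Lang} {s : List Bool} (h : Agree (s.length + 2) O O')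
    (hc : CodeB O s) : CodeB O' s := by
  obtain ⟨T, m, k, hs, hd, hi, hk⟩ := hc
  refine ⟨T, m, k, hs, hd, hi, fun k' hk' => ?_⟩
  have hl : m < s.length := by rw [hs]; exact REG_lt_pad _ _
  have := dep_mono (k := T.2) hk'
  rw [← ConT_congr (REG_agree_mono (by omega) h)]
  exact hk k' hk'

theorem REG_le_gap (n : ℕ → ℕ) (L : ℕ) : L ≤ gap n L := by
  unfold gap; omega

theorem RA_local (n : ℕ → ℕ) : Local (RA n) :=
  reg_local (fun _ _ _ h => ⟨REG_codeA h, REG_codeA (REG_agree_symm h)⟩) (REG_le_gap n)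

theorem RB_local (n : ℕ → ℕ) : Local (RB n) :=
  reg_local (fun _ _ _ h => ⟨REG_codeB h, REG_codeB (REG_agree_symm h)⟩) (REG_le_gap n)

/-- the base region at the stage `s` only depends on the oracle below `sl (n s)` -/
theorem base_gap {n : ℕ → ℕ} (hn : StrictMono n) {s : ℕ} {O O' : Lang}
    (h : Agree (sl (n s)) O O') (x : List Bool) (hx : x.length < sl (n (s + 1))) :
    BaseP (gap n) O x ↔ BaseP (gap n) O' x := by
  apply REG_base_iff
  intro L hL
  refine REG_agree_mono ?_ h
  by_contra hc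
  push Not at hc
  have h1 : s ≤ n s := hn.id_le s
  have h2 : s + 1 ≤ L + 1 := by unfold sl at hc; omega
  have h3 : n (s + 1) ≤ n (L + 1) := hn.monotone h2
  unfold gap sl at hL
  unfold sl at hx
  omega

end Pool.Agent.RF
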