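import Pool.Agent.Lib_helper78.RF.Params

/-!
# Block SEQ: the sequences of levels
-/

set_option autoImplicit false

namespace Pool.Agent.RF

open Pool.Agent.CK

theorem SEQ_gen {P : ℕ → ℕ → Prop} (hP : ∀ s, ∀ᶠ m : ℕ in Filter.atTop, P s m)
    (f : ℕ → ℕ → ℕ) : ∃ n : ℕ → ℕ, StrictMono n ∧ ∀ s, P s (n s) ∧ f s (n s) < n (s + 1) := by
  have h : ∀ s a : ℕ, ∃ m, P s m ∧ a < m := fun s a =>
    ((hP s).and (Filter.eventually_gt_atTop a)).exists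
  choose g hg1 hg2 using h
  let n : ℕ → ℕ := fun s => Nat.rec (g 0 0) (fun s a => g (s + 1) (a + f s a)) s
  have hn0 : n 0 = g 0 0 := rfl
  have hn : ∀ s, n (s + 1) = g (s + 1) (n s + f s (n s)) := fun s => rfl
  have hlt : ∀ s, n s + f s (n s) < n (s + 1) := fun s => by rw [hn]; exact hg2 _ _
  refine ⟨n, strictMono_nat_of_lt_succ (fun s => ?_), fun s => ⟨?_, ?_⟩⟩
  · have := hlt s
    omega
  · cases s with
    | zero => rw [hn0]; exact hg1 _ _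
    | succ s => rw [hn]; exact hg1 _ _
  · have := hlt s
    omega

/-- polynomially bounded functions -/
def SEQ_PB (f : ℕ → ℕ) : Prop := ∃ E : ℕ, ∀ m, f m ≤ (m + 2) ^ E

theorem SEQ_const (k : ℕ) : SEQ_PB (fun _ => k) :=
  ⟨k, fun m => by
    calc k ≤ 2 ^ k := (Nat.lt_two_pow_self).le
      _ ≤ (m + 2) ^ k := Nat.pow_le_pow_left (by omega) k⟩

theorem SEQ_id : SEQ_PB (fun m => m) := ⟨1, fun m => by rw [pow_one]; exact Nat.le_add_right m 2⟩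

theorem SEQ_add {f g : ℕ → ℕ} (hf : SEQ_PB f) (hg : SEQ_PB g) : SEQ_PB (fun m => f m + g m) := by
  obtain ⟨E, hE⟩ := hf
  obtain ⟨F, hF⟩ := hg
  refine ⟨max E F + 1, fun m => ?_⟩
  have h1 : (m + 2) ^ E ≤ (m + 2) ^ max E F := Nat.pow_le_pow_right (by omega) (le_max_left _ _)
  have h2 : (m + 2) ^ F ≤ (m + 2) ^ max E F := Nat.pow_le_pow_right (by omega) (le_max_right _ _)
  have h3 : (m + 2) ^ (max E F + 1) = (m + 2) ^ max E F * (m + 2) := pow_succ _ _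
  have h4 : (m + 2) ^ max E F * 2 ≤ (m + 2) ^ max E F * (m + 2) :=
    Nat.mul_le_mul_left _ (by omega)
  have := hE m
  have := hF m
  show f m + g m ≤ _
  omega

theorem SEQ_mul {f g : ℕ → ℕ} (hf : SEQ_PB f) (hg : SEQ_PB g) : SEQ_PB (fun m => f m * g m) := by
  obtain ⟨E, hE⟩ := hf
  obtain ⟨F, hF⟩ := hg
  exact ⟨E + F, fun m => by rw [pow_add]; exact Nat.mul_le_mul (hE m) (hF m)⟩

theorem SEQ_pow {f : ℕ → ℕ} (hf : SEQ_PB f) (k : ℕ) : SEQ_PB (fun m => f m ^ k) := by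
  obtain ⟨E, hE⟩ := hf
  exact ⟨E * k, fun m => by rw [pow_mul]; exact Nat.pow_le_pow_left (hE m) k⟩

theorem SEQ_lt {f : ℕ → ℕ} (hf : SEQ_PB f) : ∀ᶠ m : ℕ in Filter.atTop, f m < 2 ^ m := by
  obtain ⟨E, hE⟩ := hf
  filter_upwards [enum_pow (E + 1)] with m hm
  calc f m ≤ (m + 2) ^ E := hE m
    _ < (m + 2) ^ (E + 1) := Nat.pow_lt_pow_right (by omega) (by omega)
    _ ≤ 2 ^ m := hm

theorem SEQ_LB (c s : ℕ) : SEQ_PB (fun m => LB c s m) := by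
  have hNN : SEQ_PB (fun m => NN c m) :=
    SEQ_mul (SEQ_const c) (SEQ_pow (SEQ_add SEQ_id (SEQ_const 2)) 5)
  have h1 : SEQ_PB (fun m => NN c m ^ s.unpair.2 + s.unpair.2) :=
    SEQ_add (SEQ_pow hNN _) (SEQ_const _)
  exact SEQ_add (SEQ_add (SEQ_add h1 (SEQ_pow (SEQ_add h1 (SEQ_const 2)) _))
    (SEQ_add (SEQ_mul (SEQ_const 2) SEQ_id) (SEQ_const 2))) (SEQ_const 1)

theorem exists_seqA : ∃ n, SeqA n := by
  obtain ⟨n, h1, h2⟩ := SEQ_gen (P := fun s m => (m + 2) ^ s < 2 ^ m)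
    (fun s => SEQ_lt (SEQ_pow (SEQ_add SEQ_id (SEQ_const 2)) s)) (fun s m => (m + 2) ^ (s + 2))
  exact ⟨n, h1, h2⟩

theorem exists_seqB (c : ℕ) : ∃ n, SeqB c n := by
  obtain ⟨n, h1, h2⟩ := SEQ_gen (P := fun s m => (LB c s m + 2) ^ 8 < 2 ^ m)
    (fun s => SEQ_lt (SEQ_pow (SEQ_add (SEQ_LB c s) (SEQ_const 2)) 8)) (fun s m => LB c s m)
  exact ⟨n, h1, h2⟩

end Pool.Agent.RF
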