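import Pool.Agent.Lib_helper78.RF.Params
import Pool.Agent.Lib_helper78.RF.F.PRG
import Pool.Agent.Lib_helper78.RF.F.PRV
import Pool.Agent.Lib_helper78.RF.F.SUB
import Pool.Agent.Lib_helper78.RF.F.VAL

set_option autoImplicit false

namespace Pool.Agent.RF

open Pool.Agent.CK

theorem sex_poly (a C b : ℕ) : ∃ c : ℕ, ∀ n : ℕ, a * n ^ C + b ≤ n ^ c + c := by
  refine ⟨C + a + b, fun n => ?_⟩
  rcases Nat.lt_or_ge n 2 with hn | hn
  · have h1 : n ^ C ≤ 1 := pow_le_one₀ (Nat.zero_le n) (by omega)
    have h2 : a * n ^ C ≤ a * 1 := Nat.mul_le_mul_left a h1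
    omega
  · have h1 : a ≤ n ^ a := (Nat.lt_two_pow_self.le).trans (Nat.pow_le_pow_left hn a)
    have h2 : a * n ^ C ≤ n ^ a * n ^ C := Nat.mul_le_mul_right _ h1
    have h3 : n ^ a * n ^ C = n ^ (C + a) := by rw [← pow_add, Nat.add_comm a C]
    have h4 : n ^ (C + a) ≤ n ^ (C + a + b) := Nat.pow_le_pow_right (by omega) (by omega)
    omega

theorem sex_num (n : ℕ) : (num n).enc.length ≤ 24 * n + 2 := by
  have h1 := num_len n
  have h2 : Nat.size n ≤ n := Nat.size_le.mpr Nat.lt_two_pow_self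
  omega

theorem RFN_len (T : Th) : ∃ C, ∀ n, (RFN T n).enc.length ≤ n ^ C + C := by
  have key : ∃ K : ℕ, ∀ n, (RFN T n).enc.length = 4 * (num n).enc.length + K := by
    refine ⟨(RFN T 0).enc.length - 4 * (num 0).enc.length, fun n => ?_⟩
    have h1 : (num 0).enc.length = 2 := by simp [num, Tm.enc, tag]
    have h2 : 8 ≤ (RFN T 0).enc.length := by
      simp only [RFN, Fm.and, Fm.enc, tag, List.length_append, List.length_replicate,
        List.length_cons, List.length_nil]
      omega
    rw [h1]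
    have h3 : (RFN T n).enc.length + 8 = (RFN T 0).enc.length + 4 * (num n).enc.length := by
      simp only [RFN, Fm.and, Fm.enc, tag, List.length_append, List.length_replicate,
        List.length_cons, List.length_nil, h1]
      omega
    omega
  obtain ⟨K, hK⟩ := key
  obtain ⟨c, hc⟩ := sex_poly 96 1 (K + 8)
  refine ⟨c, fun n => ?_⟩
  have h1 := hc n
  have h2 := sex_num n
  rw [hK]
  rw [pow_one] at h1
  omega

theorem Con_len (T : Th) : ∃ C, ∀ n, (Con T n).enc.length ≤ n ^ C + C := by
  have key : ∃ K : ℕ, ∀ n, (Con T n).enc.length = (num n).enc.length + K := by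
    refine ⟨(Con T 0).enc.length - (num 0).enc.length, fun n => ?_⟩
    have h1 : (num 0).enc.length = 2 := by simp [num, Tm.enc, tag]
    have h2 : 8 ≤ (Con T 0).enc.length := by
      simp only [Con, Fm.enc, tag, List.length_append, List.length_replicate,
        List.length_cons, List.length_nil]
      omega
    rw [h1]
    have h3 : (Con T n).enc.length + 2 = (Con T 0).enc.length + (num n).enc.length := by
      simp only [Con, Fm.enc, tag, List.length_append, List.length_replicate,
        List.length_cons, List.length_nil, h1]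
      omega
    omega
  obtain ⟨K, hK⟩ := key
  obtain ⟨c, hc⟩ := sex_poly 24 1 (K + 2)
  refine ⟨c, fun n => ?_⟩
  have h1 := hc n
  have h2 := sex_num n
  rw [hK]
  rw [pow_one] at h1
  omega

theorem S_exists {O : Lang} {B : Fm → Prop} (hB : Base O B) (Φ : Th → ℕ → Fm)
    (hcode : ∀ σ : Fm, O (true :: false :: σ.enc) = true → σ.Closed ∧ σ.True O)
    (hfull : ∀ T, InT O B T → ∃ C, ∀ n, ∃ m ≤ n ^ C + C,
      O (true :: false :: (pad m (Φ T n)).enc) = true)
    (hlen : ∀ T, ∃ C, ∀ n, (Φ T n).enc.length ≤ n ^ C + C) :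
    ∃ S, InT O B S ∧ ∀ T, InT O B T → PolyBounded O S (Φ T) := by
  obtain ⟨TB, hT1, hT2⟩ := hB.dec
  let S : Th := (orAsk [true, false] TB.1, exAsk [true, false] TB.2)
  have hspec := orAsk_spec (O := O) (τ := [true, false]) (p := TB.1) (k := TB.2) hT1
  have hAx : ∀ σ, Ax O S σ ↔ O (true :: false :: σ.enc) = true ∨ B σ := by
    intro σ
    have h1 := (hspec σ.enc).2
    have h2 := hT2 σ
    constructor
    · intro h
      rcases h1.mp h with h3 | h3
      · exact Or.inl h3
      · exact Or.inr (h2.mp h3)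
    · intro h
      rcases h with h3 | h3
      · exact h1.mpr (Or.inl h3)
      · exact h1.mpr (Or.inr (h2.mpr h3))
  have hS : InT O B S := by
    refine ⟨fun x => (hspec x).1, fun σ hσ => (hAx σ).mpr (Or.inr hσ), fun σ hσ => ?_, ?_⟩
    · rcases (hAx σ).mp hσ with h | h
      · exact (hcode σ h).1
      · exact hB.closed σ h
    · intro hp
      have h1 : falsum.True O := by
        refine sound (fun σ hσ => ?_) hp
        rcases (hAx σ).mp hσ with h | h
        · exact (hcode σ h).2
        · exact hB.isTrue σ h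
      exact h1 (fun _ => 0) rfl
  refine ⟨S, hS, fun T hT => ?_⟩
  obtain ⟨C, hC⟩ := hfull T hT
  obtain ⟨D, hD⟩ := hlen T
  obtain ⟨c, hc⟩ := sex_poly 14 (C + D) (14 * (C + D) + 54)
  refine ⟨c, fun n => ?_⟩
  obtain ⟨m, hm, hO⟩ := hC n
  obtain ⟨l, hl, hlen'⟩ := pad_proof (A := Ax O S) ((hAx _).mpr (Or.inl hO))
  refine ⟨l, hl, hlen'.trans ?_⟩
  have h1 := hD n
  have h2 := hc n
  have h3 : ∀ a b : ℕ, n ^ a ≤ n ^ (a + b) + 1 := by
    intro a b
    rcases Nat.eq_zero_or_pos n with h | h
    · subst h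
      have : (0 : ℕ) ^ a ≤ 1 := pow_le_one₀ (le_refl 0) (by norm_num)
      exact this.trans (Nat.le_add_left 1 _)
    · have := Nat.pow_le_pow_right h (Nat.le_add_right a b)
      omega
  have h4 := h3 C D
  have h5 := h3 D C
  rw [Nat.add_comm D C] at h5
  omega

end Pool.Agent.RF
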