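import Pool.Agent.Lib_helper78.RF.Params
import Pool.Agent.Lib_helper78.RF.F.DEP
import Pool.Agent.Lib_helper78.RF.F.PRV
import Pool.Agent.Lib_helper78.RF.F.VAL

set_option autoImplicit false

namespace Pool.Agent.RF

open Pool.Agent.CK

theorem QRY_dt {β : Type} (O : Lang) (P : List Bool → Prop) (T : DT β) (h : T.AllQ P) :
    ∃ Q : List (List Bool), Q.length ≤ T.depth ∧ (∀ q ∈ Q, P q) ∧
      ∀ O' : Lang, (∀ q ∈ Q, O' q = O q) → T.eval O' = T.eval O := by
  induction T with
  | leaf b => exact ⟨[], le_rfl, fun q hq => absurd hq List.not_mem_nil, fun _ _ => rfl⟩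
  | node w n0 n1 h0 h1 =>
    obtain ⟨hw, ha0, ha1⟩ := h
    obtain ⟨Q0, hl0, hq0, he0⟩ := h0 ha0
    obtain ⟨Q1, hl1, hq1, he1⟩ := h1 ha1
    by_cases hO : O w = true
    · refine ⟨w :: Q1, ?_, ?_, ?_⟩
      · rw [List.length_cons, DT.depth_node]; omega
      · intro q hq
        rcases List.mem_cons.1 hq with hq | hq
        · subst hq; exact hw
        · exact hq1 q hq
      · intro O' hO'
        have h1 : O' w = true := by rw [hO' w List.mem_cons_self]; exact hO
        rw [DT.eval_node, DT.eval_node, if_pos h1, if_pos hO]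
        exact he1 O' fun q hq => hO' q (List.mem_cons_of_mem _ hq)
    · refine ⟨w :: Q0, ?_, ?_, ?_⟩
      · rw [List.length_cons, DT.depth_node]; omega
      · intro q hq
        rcases List.mem_cons.1 hq with hq | hq
        · subst hq; exact hw
        · exact hq0 q hq
      · intro O' hO'
        have h1 : ¬ O' w = true := by rw [hO' w List.mem_cons_self]; exact hO
        rw [DT.eval_node, DT.eval_node, if_neg h1, if_neg hO]
        exact he0 O' fun q hq => hO' q (List.mem_cons_of_mem _ hq)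

/-- the questions of a computation -/
theorem run_queries (O : Lang) (c : Cmd) (x y : List Bool) (t N : ℕ) (hx : x.length + t ≤ N)
    (hy : y.length + t ≤ N) :
    ∃ Q : List (List Bool), Q.length ≤ t ∧ (∀ q ∈ Q, q.length < N) ∧
      ∀ O' : Lang, (∀ q ∈ Q, O' q = O q) → run O' c x y t = run O c x y t := by
  have hA : (runTree t ([c], init x y)).AllQ (fun w => w.length < N) := by
    refine mach_allQ_runTree t _ (max x.length y.length) N
      (mach_init_len x y _ (le_max_left _ _) (le_max_right _ _)) ?_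
    rcases le_total x.length y.length with h1 | h1
    · rw [max_eq_right h1]; exact hy
    · rw [max_eq_left h1]; exact hx
  obtain ⟨Q, h1, h2, h3⟩ := QRY_dt O _ _ hA
  refine ⟨Q, h1.trans (mach_depth_runTree _ _), h2, fun O' hO' => ?_⟩
  have h4 := h3 O' hO'
  rw [mach_eval_runTree, mach_eval_runTree] at h4
  exact h4

theorem QRY_flatMap {α β : Type} (l : List α) (g : α → List β) (K : ℕ)
    (h : ∀ a ∈ l, (g a).length ≤ K) : (l.flatMap g).length ≤ l.length * K := by
  induction l with
  | nil => simp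
  | cons a l ih =>
    rw [List.flatMap_cons, List.length_append, List.length_cons]
    have h1 := h a List.mem_cons_self
    have h2 := ih fun b hb => h b (List.mem_cons_of_mem _ hb)
    have h3 : (l.length + 1) * K = l.length * K + K := by ring
    omega

/-- the questions of the check of a proof; `f` is the running time -/
theorem proof_queries (O : Lang) (c : Cmd) (f : Fm → ℕ) (l : List Fm) (K N : ℕ)
    (hf : ∀ σ ∈ l, f σ ≤ K ∧ σ.enc.length + f σ ≤ N)
    (hl : IsProof (fun σ => Accepts O c σ.enc [] (f σ)) l) :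
    ∃ Q : List (List Bool), Q.length ≤ l.length * K ∧ (∀ q ∈ Q, q.length < N) ∧
      ∀ O' : Lang, (∀ q ∈ Q, O' q = O q) →
        IsProof (fun σ => Accepts O' c σ.enc [] (f σ)) l := by
  have h0 : ∀ σ : Fm, ∃ Q : List (List Bool), σ ∈ l → Q.length ≤ f σ ∧ (∀ q ∈ Q, q.length < N) ∧
      ∀ O' : Lang, (∀ q ∈ Q, O' q = O q) →
        run O' c σ.enc [] (f σ) = run O c σ.enc [] (f σ) := by
    intro σ
    by_cases hσ : σ ∈ l
    · obtain ⟨h1, h2⟩ := hf σ hσ
      obtain ⟨Q, hQ⟩ := run_queries O c σ.enc [] (f σ) N h2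
        (by simp only [List.length_nil]; omega)
      exact ⟨Q, fun _ => hQ⟩
    · exact ⟨[], fun h => absurd h hσ⟩
  choose g hg using h0
  refine ⟨l.flatMap g, QRY_flatMap l g K fun σ hσ => ((hg σ hσ).1).trans (hf σ hσ).1, ?_, ?_⟩
  · intro q hq
    obtain ⟨σ, hσ, hq⟩ := List.mem_flatMap.1 hq
    exact (hg σ hσ).2.1 q hq
  · intro O' hO'
    refine isProof_mono (fun σ hσ hA => ?_) hl
    have h1 := (hg σ hσ).2.2 O' fun q hq => hO' q (List.mem_flatMap.2 ⟨σ, hσ, hq⟩)
    unfold Accepts at hA ⊢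
    rw [h1]
    exact hA

theorem QRY_mem_len {l : List Fm} {σ : Fm} (h : σ ∈ l) : σ.enc.length ≤ (pEnc l).length := by
  unfold pEnc
  induction l with
  | nil => exact absurd h List.not_mem_nil
  | cons φ l ih =>
    rw [List.map_cons, List.flatten_cons, List.length_append]
    rcases List.mem_cons.1 h with h | h
    · subst h; omega
    · have := ih h; omega

theorem QRY_tag_pos (k : ℕ) : 1 ≤ (tag k).length := by
  unfold tag
  rw [List.length_append, List.length_singleton]
  omega

theorem QRY_enc_pos (φ : Fm) : 1 ≤ φ.enc.length := by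
  cases φ <;> simp only [Fm.enc, List.length_append] <;>
    exact (QRY_tag_pos _).trans (Nat.le_add_right _ _)

theorem QRY_lines (l : List Fm) : l.length ≤ (pEnc l).length := by
  unfold pEnc
  induction l with
  | nil => exact le_rfl
  | cons φ l ih =>
    rw [List.map_cons, List.flatten_cons, List.length_append, List.length_cons]
    have := QRY_enc_pos φ
    omega

theorem QRY_clkS_mono (k : ℕ) {m m' : ℕ} (h : m ≤ m') : clkS k m ≤ clkS k m' := by
  induction k with
  | zero => exact le_rfl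
  | succ k ih =>
    unfold clkS
    have := Nat.mul_le_mul ih (Nat.add_le_add_right h 2)
    omega

/-- certificates for dead theories -/
theorem not_conT_queries {O : Lang} {T : Th} {k : ℕ} (h : ¬ ConT O T k) :
    ∃ Q : List (List Bool), Q.length ≤ Dep T.2 k * Dep T.2 k ∧ (∀ q ∈ Q, q.length < Dep T.2 k) ∧
      ∀ O' : Lang, (∀ q ∈ Q, O' q = O q) → ¬ ConT O' T k := by
  unfold ConT at h
  push Not at h
  obtain ⟨l, hl, hp⟩ := h
  have h1 := (size_val (pEnc (l ++ [falsum]))).1
  have h2 := QRY_lines (l ++ [falsum])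
  have h3 : clkS T.2 (Nat.size (val (pEnc (l ++ [falsum])))) ≤ clkS T.2 k := QRY_clkS_mono _ hl
  have h4 : clkS T.2 k ≤ Dep T.2 k := clk_dep _ _
  have h5 : k ≤ Dep T.2 k := le_dep _ _
  obtain ⟨Q, hQ1, hQ2, hQ3⟩ := proof_queries O T.1
    (fun _ => clkS T.2 (Nat.size (val (pEnc (l ++ [falsum]))))) (l ++ [falsum])
    (Dep T.2 k) (Dep T.2 k) (fun σ hσ => by
      have h6 := QRY_mem_len hσ
      refine ⟨h3.trans h4, ?_⟩
      unfold Dep
      omega) hp
  refine ⟨Q, hQ1.trans (Nat.mul_le_mul_right _ (by omega)), hQ2, fun O' hO' hC => ?_⟩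
  exact hC l hl (hQ3 O' hO')

/-- certificates for short proofs -/
theorem short_queries {c s n : ℕ} {O : Lang}
    (h : ShortB s.unpair.1 s.unpair.2 (NN c n) O) :
    ∃ Q : List (List Bool), Q.length ≤ LB c s n * LB c s n ∧ (∀ q ∈ Q, q.length < LB c s n) ∧
      ∀ O' : Lang, (∀ q ∈ Q, O' q = O q) → ShortB s.unpair.1 s.unpair.2 (NN c n) O' := by
  obtain ⟨l, hp, hl⟩ := h
  have h2 := QRY_lines (l ++ [RFN (TJ s.unpair.1) (NN c n)])
  have hP : (pEnc (l ++ [RFN (TJ s.unpair.1) (NN c n)])).length ≤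
    NN c n ^ s.unpair.2 + s.unpair.2 := hl
  have key : ∀ σ ∈ l ++ [RFN (TJ s.unpair.1) (NN c n)],
      (σ.enc.length + 2) ^ (thp s.unpair.1).2.2 ≤
        (NN c n ^ s.unpair.2 + s.unpair.2 + 2) ^ (thp s.unpair.1).2.2 := by
    intro σ hσ
    have h6 := QRY_mem_len hσ
    exact Nat.pow_le_pow_left (by omega) _
  obtain ⟨Q, hQ1, hQ2, hQ3⟩ := proof_queries O (thp s.unpair.1).2.1
    (fun σ => (σ.enc.length + 2) ^ (thp s.unpair.1).2.2)
    (l ++ [RFN (TJ s.unpair.1) (NN c n)]) (LB c s n) (LB c s n) (fun σ hσ => by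
      have h6 := QRY_mem_len hσ
      have h7 := key σ hσ
      change (σ.enc.length + 2) ^ (thp s.unpair.1).2.2 ≤ LB c s n ∧
        σ.enc.length + (σ.enc.length + 2) ^ (thp s.unpair.1).2.2 ≤ LB c s n
      unfold LB
      constructor <;> omega) hp
  refine ⟨Q, hQ1.trans (Nat.mul_le_mul_right _ ?_), hQ2, fun O' hO' => ?_⟩
  · unfold LB; omega
  · exact ⟨l, hQ3 O' hO', hl⟩

end Pool.Agent.RF
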