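import Pool.Agent.Lib_helper78.RF.Params
import Pool.Agent.Lib_helper74.CKF.ZONE
import Pool.Agent.Lib_helper78.RF.F.DEP
import Pool.Agent.Lib_helper78.RF.F.MKO
import Pool.Agent.Lib_helper78.RF.F.PRV
import Pool.Agent.Lib_helper78.RF.F.QRY
import Pool.Agent.Lib_helper78.RF.F.REG

set_option autoImplicit false

namespace Pool.Agent.RF

open Pool.Agent.CK

/-- lexicographically maximal choice -/
theorem stb_lex {ι α : Type*} [Finite ι] [Nonempty ι] (D : ι → ℕ → Set α) (W : ℕ) :
    ∃ i, ∀ L < W, ∀ j, (∀ L' < L, D j L' = D i L') → D i L ⊆ D j L → D i L = D j L := by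
  induction W with
  | zero => exact ⟨Classical.arbitrary ι, fun L hL => absurd hL (Nat.not_lt_zero L)⟩
  | succ W ih =>
    obtain ⟨i, hi⟩ := ih
    obtain ⟨j, hj1, hj2⟩ := Set.Finite.exists_maximalFor (fun j => D j W)
      {j | ∀ L < W, D j L = D i L} (Set.toFinite _) ⟨i, fun L _ => rfl⟩
    refine ⟨j, fun L hL k hk hs => ?_⟩
    rcases Nat.lt_succ_iff_lt_or_eq.1 hL with h | h
    · rw [hj1 L h] at hs ⊢
      exact hi L h k (fun L' h' => (hk L' h').trans (hj1 L' (h'.trans h))) hs
    · subst h
      refine Set.Subset.antisymm hs (hj2 (fun L' h' => ?_) hs)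
      exact (hk L' h').trans (hj1 L' h')

open Classical in
/-- the secret part with the witnesses `G` -/
noncomputable def stb_Y (m : ℕ) (Y : Lang)
    (G : List.Vector Bool m → Option (List.Vector Bool m)) : Lang := fun x =>
  Y x || decide (∃ u y, G u = some y ∧ x = saddr u.1 y.1 true)

/-- the dead pairs below `L` -/
def stb_D (W L : ℕ) (O : Lang) : Set (Th × ℕ) :=
  {p | idx p.1 ≤ W ∧ Dep p.1.2 p.2 ≤ L ∧ ¬ ConT O p.1 p.2}

theorem stb_sl {m : ℕ} (u y : List.Vector Bool m) : (saddr u.1 y.1 true).length = sl m := by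
  have := saddr_length (x := u.1) (y := y.1) (by rw [u.2, y.2]) true
  rw [this, u.2]; rfl

theorem stb_inj {m : ℕ} {u y u' y' : List.Vector Bool m}
    (h : saddr u.1 y.1 true = saddr u'.1 y'.1 true) : u = u' ∧ y = y' := by
  obtain ⟨h1, h2, -⟩ := addr_saddr_inj (by rw [u.2, y.2]) (by rw [u'.2, y'.2]) h
  exact ⟨Subtype.ext h1, Subtype.ext h2⟩

theorem stb_Y_congr {m : ℕ} {Y : Lang} {G G' : List.Vector Bool m → Option (List.Vector Bool m)}
    {x : List Bool} (h : ∀ u y, x = saddr u.1 y.1 true → (G u = some y ↔ G' u = some y)) :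
    stb_Y m Y G x = stb_Y m Y G' x := by
  unfold stb_Y
  congr 2
  apply propext
  constructor
  · rintro ⟨u, y, h1, h2⟩
    exact ⟨u, y, (h u y h2).1 h1, h2⟩
  · rintro ⟨u, y, h1, h2⟩
    exact ⟨u, y, (h u y h2).2 h1, h2⟩

theorem stb_Y_low {m : ℕ} {Y : Lang} {G : List.Vector Bool m → Option (List.Vector Bool m)}
    {x : List Bool} (h : x.length ≠ sl m) : stb_Y m Y G x = Y x := by
  unfold stb_Y
  have : ¬ ∃ u y, G u = some y ∧ x = saddr u.1 y.1 true := by
    rintro ⟨u, y, -, h2⟩
    exact h (by rw [h2, stb_sl])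
  rw [decide_eq_false this, Bool.or_false]

theorem stb_Y_saddr {m : ℕ} {Y : Lang} (hY : ∀ x : List Bool, sl m ≤ x.length → Y x = false)
    {G : List.Vector Bool m → Option (List.Vector Bool m)} (u y : List.Vector Bool m) :
    stb_Y m Y G (saddr u.1 y.1 true) = true ↔ G u = some y := by
  unfold stb_Y
  rw [hY _ (by rw [stb_sl]), Bool.false_or, decide_eq_true_iff]
  constructor
  · rintro ⟨u', y', h1, h2⟩
    obtain ⟨rfl, rfl⟩ := stb_inj h2
    exact h1
  · intro h
    exact ⟨u, y, h, rfl⟩

open Classical in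
theorem stb_V {n : ℕ → ℕ} {m : ℕ} {Y : Lang}
    (hY : ∀ x : List Bool, sl m ≤ x.length → Y x = false)
    {G : List.Vector Bool m → Option (List.Vector Bool m)} (u : List.Vector Bool m) :
    V (mkO (RB n) (stb_Y m Y G)) u.1 = true ↔ G u ≠ none := by
  unfold V
  rw [decide_eq_true_iff]
  have key : ∀ y : List Bool, mkO (RB n) (stb_Y m Y G) (saddr u.1 y true) =
      stb_Y m Y G (saddr u.1 y true) := by
    intro y
    rw [mkO_eq (RB_local n), if_pos]
    rfl
  constructor
  · rintro ⟨y, h1, h2⟩
    rw [key] at h2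
    have := (stb_Y_saddr hY u ⟨y, h1.trans u.2⟩).1 h2
    rw [this]; simp
  · intro h
    obtain ⟨y, hy⟩ := Option.ne_none_iff_exists'.1 h
    exact ⟨y.1, by rw [y.2, u.2], by rw [key]; exact (stb_Y_saddr hY u y).2 hy⟩

theorem stb_tot {n : ℕ → ℕ} {m : ℕ} {Y : Lang}
    (hY : ∀ x : List Bool, sl m ≤ x.length → Y x = false)
    {G : List.Vector Bool m → Option (List.Vector Bool m)} :
    TotB m (mkO (RB n) (stb_Y m Y G)) ↔ ∀ u, G u ≠ none := by
  constructor
  · intro h u
    exact (stb_V hY u).1 (h u.1 u.2)
  · intro h u hu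
    exact (stb_V hY ⟨u, hu⟩).2 (h _)

theorem stb_low {m : ℕ} {Y : Lang} {G : List.Vector Bool m → Option (List.Vector Bool m)} :
    Agree (sl m) Y (stb_Y m Y G) := by
  intro x hx
  rw [stb_Y_low (by omega)]

/-- the comparison of two worlds -/
theorem stb_cmp {n : ℕ → ℕ} (hn : StrictMono n) {s W L : ℕ} (hW : W < n (s + 1)) (hL : L ≤ W)
    {Y : Lang} {G G' : List.Vector Bool (n s) → Option (List.Vector Bool (n s))}
    (h : ∀ L' < L, stb_D W L' (mkO (RB n) (stb_Y (n s) Y G)) =
      stb_D W L' (mkO (RB n) (stb_Y (n s) Y G')))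
    {x : List Bool} (hxL : x.length ≤ L)
    (hx : ∀ u y, x = saddr u.1 y.1 true → (G u = some y ↔ G' u = some y)) :
    mkO (RB n) (stb_Y (n s) Y G) x = mkO (RB n) (stb_Y (n s) Y G') x := by
  have hag : Agree (sl (n s)) (mkO (RB n) (stb_Y (n s) Y G)) (mkO (RB n) (stb_Y (n s) Y G')) := by
    apply mkO_agree (RB_local n)
    intro z hz
    rw [← stb_low z hz, ← stb_low z hz]
  rw [mkO_eq (RB_local n) (stb_Y (n s) Y G), mkO_eq (RB_local n) (stb_Y (n s) Y G')]
  split_ifs with h0
  · exact stb_Y_congr hx
  · generalize mkO (RB n) (stb_Y (n s) Y G) = O at h hag ⊢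
    generalize mkO (RB n) (stb_Y (n s) Y G') = O' at h hag ⊢
    unfold RB
    have hsl : W < sl (n (s + 1)) := by unfold sl; omega
    match x, h0, hxL, hx with
    | [], _, _, _ => rfl
    | [true], _, _, _ => rfl
    | [true, true], _, _, _ => rfl
    | true :: true :: true :: z, _, _, _ => rfl
    | false :: z, h0, _, _ => simp at h0
    | true :: true :: false :: z, _, hxL, _ =>
      simp only [reg]
      congr 1
      apply propext
      simp only [List.length_cons] at hxL
      exact base_gap hn hag z (by omega)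
    | true :: false :: z, _, hxL, _ =>
      simp only [reg]
      congr 1
      apply propext
      simp only [List.length_cons] at hxL
      have key : ∀ (T : Th) (m k : ℕ), z = (pad m (Con T k)).enc → Dep T.2 k ≤ m → idx T ≤ m →
          ((∀ k' ≤ k, ConT O T k') ↔ ∀ k' ≤ k, ConT O' T k') := by
        intro T m k h1 h2 h3
        have h4 : z.length = 6 * m + 12 + (Con T k).enc.length := by rw [h1, pad_len]
        have h5 : m < L := by omega
        have h6 := h m h5
        refine forall_congr' fun k' => forall_congr' fun hk' => ?_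
        have h7 : Dep T.2 k' ≤ m := (dep_mono hk').trans h2
        have h8 : ((T, k') ∈ stb_D W m O) ↔ ((T, k') ∈ stb_D W m O') := by rw [h6]
        simp only [stb_D, Set.mem_ofPred_eq] at h8
        have h9 : idx T ≤ W := by omega
        tauto
      unfold CodeB
      constructor
      · rintro ⟨T, m, k, h1, h2, h3, h4⟩
        exact ⟨T, m, k, h1, h2, h3, (key T m k h1 h2 h3).1 h4⟩
      · rintro ⟨T, m, k, h1, h2, h3, h4⟩
        exact ⟨T, m, k, h1, h2, h3, (key T m k h1 h2 h3).2 h4⟩

open Classical in
/-- the strings `u` with an address in the list -/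
noncomputable def stb_touch (m : ℕ) (Q : List (List Bool)) : Finset (List.Vector Bool m) :=
  Finset.univ.filter fun u => ∃ y : List.Vector Bool m, saddr u.1 y.1 true ∈ Q

theorem stb_touch_card (m : ℕ) (Q : List (List Bool)) : (stb_touch m Q).card ≤ Q.length := by
  classical
  have h : ∀ u ∈ stb_touch m Q, ∃ y : List.Vector Bool m, saddr u.1 y.1 true ∈ Q := by
    intro u hu
    exact (Finset.mem_filter.1 hu).2
  choose! y hy using h
  calc (stb_touch m Q).card ≤ Q.toFinset.card := by
        apply Finset.card_le_card_of_injOn (fun u => saddr u.1 (y u).1 true)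
        · intro u hu
          exact List.mem_toFinset.2 (hy u hu)
        · intro u _ u' _ h
          exact (stb_inj h).1
    _ ≤ Q.length := List.toFinset_card_le Q

theorem stb_pair_card (W L : ℕ) (hL : L ≤ W) (O : Lang) :
    (stb_D W L O).Finite ∧ (stb_D W L O).ncard ≤ (W + 1) ^ 2 := by
  have hinj : Set.InjOn (fun p : Th × ℕ => (idx p.1, p.2)) (stb_D W L O) := by
    rintro ⟨T, k⟩ _ ⟨T', k'⟩ _ h
    simp only [Prod.mk.injEq, idx, Nat.pair_eq_pair] at h
    obtain ⟨⟨h1, h2⟩, h3⟩ := h
    rw [Prod.mk.injEq]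
    exact ⟨Prod.ext (Encodable.encode_injective h1) h2, h3⟩
  have hmaps : Set.MapsTo (fun p : Th × ℕ => (idx p.1, p.2)) (stb_D W L O)
      (↑(Finset.range (W + 1) ×ˢ Finset.range (W + 1)) : Set (ℕ × ℕ)) := by
    rintro ⟨T, k⟩ ⟨h1, h2, -⟩
    have := le_dep T.2 k
    simp only [Finset.coe_product, Set.mem_prod, Finset.coe_range, Set.mem_Iio] at *
    omega
  have hfin := Set.Finite.of_injOn hmaps hinj (Finset.finite_toSet _)
  refine ⟨hfin, ?_⟩
  calc (stb_D W L O).ncard ≤
      ((↑(Finset.range (W + 1) ×ˢ Finset.range (W + 1)) : Set (ℕ × ℕ))).ncard :=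
        Set.ncard_le_ncard_of_injOn _ hmaps hinj (Finset.finite_toSet _)
    _ = (W + 1) ^ 2 := by
        rw [Set.ncard_coe_finset, Finset.card_product, Finset.card_range, sq]

theorem stageB {c : ℕ} {n : ℕ → ℕ} (hn : SeqB c n) (s : ℕ) (Y : Lang)
    (hY : ∀ x : List Bool, sl (n s) ≤ x.length → Y x = false) :
    ∃ Y' : Lang, Agree (sl (n s)) Y Y' ∧
      (∀ x : List Bool, sl (n (s + 1)) ≤ x.length → Y' x = false) ∧
      QB c n s (mkO (RB n) Y') := by
  classical
  obtain ⟨hmono, hseq⟩ := hn
  obtain ⟨hpow, hnext⟩ := hseq s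
  set W := LB c s (n s) with hWdef
  have hslW : sl (n s) < W := by
    rw [hWdef]; unfold LB; omega
  have hnn : n s < n (s + 1) := hmono (Nat.lt_succ_self s)
  have hgood : ∀ G : List.Vector Bool (n s) → Option (List.Vector Bool (n s)),
      ∀ x : List Bool, sl (n (s + 1)) ≤ x.length → stb_Y (n s) Y G x = false := by
    intro G x hx
    have h1 : sl (n s) < sl (n (s + 1)) := by unfold sl; omega
    rw [stb_Y_low (by omega)]
    exact hY x (by omega)
  have hcardV : Fintype.card (List.Vector Bool (n s)) = 2 ^ n s := by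
    rw [card_vector, Fintype.card_bool]
  -- lexicographically maximal choice
  obtain ⟨F, hF⟩ := stb_lex (ι := List.Vector Bool (n s) → List.Vector Bool (n s))
    (fun F L => stb_D W L (mkO (RB n) (stb_Y (n s) Y fun u => some (F u)))) (W + 1)
  set OF := mkO (RB n) (stb_Y (n s) Y fun u => some (F u)) with hOF
  by_cases hshort : ShortB s.unpair.1 s.unpair.2 (NN c (n s)) OF
  swap
  · refine ⟨stb_Y (n s) Y fun u => some (F u), stb_low, hgood _, ?_⟩
    show QB c n s OF
    unfold QB
    rw [iff_true_right hshort, hOF, stb_tot hY]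
    intro u
    simp
  obtain ⟨Q0, hQ0, hQ0l, hQ0s⟩ := short_queries hshort
  rw [← hWdef] at hQ0 hQ0l
  -- question lists of the dead pairs
  have hq : ∀ p ∈ stb_D W W OF, ∃ Q : List (List Bool),
      Q.length ≤ Dep p.1.2 p.2 * Dep p.1.2 p.2 ∧ (∀ q ∈ Q, q.length < Dep p.1.2 p.2) ∧
      ∀ O' : Lang, (∀ q ∈ Q, O' q = OF q) → ¬ ConT O' p.1 p.2 :=
    fun p hp => not_conT_queries hp.2.2
  choose! Qf hQf1 hQf2 hQf3 using hq
  obtain ⟨hfin, hncard⟩ := stb_pair_card W W le_rfl OF
  -- the bad strings
  set BAD : Finset (List.Vector Bool (n s)) :=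
    (hfin.toFinset.biUnion fun p => stb_touch (n s) (Qf p)) ∪ stb_touch (n s) Q0 with hBAD
  have hBADcard : BAD.card < Fintype.card (List.Vector Bool (n s)) := by
    have h1 : (hfin.toFinset.biUnion fun p => stb_touch (n s) (Qf p)).card ≤
        hfin.toFinset.card * (W * W) := by
      apply Finset.card_biUnion_le_card_mul
      intro p hp
      rw [Set.Finite.mem_toFinset] at hp
      refine (stb_touch_card _ _).trans ((hQf1 p hp).trans ?_)
      exact Nat.mul_le_mul hp.2.1 hp.2.1
    have h2 : hfin.toFinset.card ≤ (W + 1) ^ 2 := by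
      rw [← Set.ncard_eq_toFinset_card _ hfin]; exact hncard
    have h3 : BAD.card ≤ (W + 1) ^ 2 * (W * W) + W * W :=
      (Finset.card_union_le _ _).trans (Nat.add_le_add
        (h1.trans (Nat.mul_le_mul_right _ h2)) ((stb_touch_card _ _).trans hQ0))
    rw [hcardV]
    refine lt_of_le_of_lt (h3.trans ?_) hpow
    have h4 : (W + 1) ^ 2 ≤ (W + 2) ^ 2 := Nat.pow_le_pow_left (by omega) 2
    have h5 : W * W ≤ (W + 2) ^ 2 := by nlinarith
    have h6 : (W + 1) ^ 2 * (W * W) ≤ (W + 2) ^ 4 := by
      calc (W + 1) ^ 2 * (W * W) ≤ (W + 2) ^ 2 * (W + 2) ^ 2 := Nat.mul_le_mul h4 h5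
        _ = (W + 2) ^ 4 := by ring
    have h7 : (W + 2) ^ 2 ≤ (W + 2) ^ 4 := Nat.pow_le_pow_right (by omega) (by omega)
    have h8 : 2 * (W + 2) ^ 4 ≤ (W + 2) ^ 8 := by
      calc 2 * (W + 2) ^ 4 ≤ (W + 2) ^ 4 * (W + 2) ^ 4 := by
            apply Nat.mul_le_mul_right
            calc 2 ≤ W + 2 := by omega
              _ = (W + 2) ^ 1 := by ring
              _ ≤ (W + 2) ^ 4 := Nat.pow_le_pow_right (by omega) (by omega)
        _ = (W + 2) ^ 8 := by ring
    omega
  obtain ⟨us, hus⟩ : ∃ us, us ∉ BAD := by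
    by_contra hcon
    push Not at hcon
    have : BAD = Finset.univ := Finset.eq_univ_iff_forall.2 hcon
    rw [this, Finset.card_univ] at hBADcard
    exact lt_irrefl _ hBADcard
  have husQ : ∀ p ∈ stb_D W W OF, ∀ y : List.Vector Bool (n s), saddr us.1 y.1 true ∉ Qf p := by
    intro p hp y hy
    apply hus
    rw [hBAD]
    apply Finset.mem_union_left
    rw [Finset.mem_biUnion]
    exact ⟨p, hfin.mem_toFinset.2 hp, Finset.mem_filter.2 ⟨Finset.mem_univ _, y, hy⟩⟩
  have husQ0 : ∀ y : List.Vector Bool (n s), saddr us.1 y.1 true ∉ Q0 := by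
    intro y hy
    apply hus
    rw [hBAD]
    apply Finset.mem_union_right
    exact Finset.mem_filter.2 ⟨Finset.mem_univ _, y, hy⟩
  set Gm : List.Vector Bool (n s) → Option (List.Vector Bool (n s)) :=
    Function.update (fun u => some (F u)) us none with hGm
  set Om := mkO (RB n) (stb_Y (n s) Y Gm) with hOm
  -- comparison of OF and Om
  have cmp : ∀ L ≤ W, (∀ L' < L, stb_D W L' Om = stb_D W L' OF) → ∀ x : List Bool,
      x.length ≤ L → (∀ y : List.Vector Bool (n s), x ≠ saddr us.1 y.1 true) → Om x = OF x := by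
    intro L hL h x hx hx'
    rw [hOm, hOF]
    apply stb_cmp hmono hnext hL h hx
    intro u y hxy
    have : u ≠ us := by
      rintro rfl
      exact hx' y hxy
    rw [hGm, Function.update_of_ne this]
  have claim : ∀ L ≤ W, stb_D W L Om = stb_D W L OF := by
    intro L
    induction L using Nat.strong_induction_on with
    | _ L ih =>
      intro hL
      have ih' : ∀ L' < L, stb_D W L' Om = stb_D W L' OF := fun L' h => ih L' h (by omega)
      apply Set.Subset.antisymm
      · -- superset of the blueprint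
        rintro ⟨T, k⟩ ⟨h1, h2, h3⟩
        by_contra hnot
        obtain ⟨Q1, hQ1, hQ1l, hQ1s⟩ := not_conT_queries h3
        -- a new witness
        obtain ⟨y', hy'⟩ : ∃ y' : List.Vector Bool (n s), saddr us.1 y'.1 true ∉ Q1 := by
          by_contra hcon
          push Not at hcon
          have hc : Fintype.card (List.Vector Bool (n s)) ≤ Q1.toFinset.card := by
            rw [← Finset.card_univ]
            apply Finset.card_le_card_of_injOn (fun y => saddr us.1 y.1 true)
            · intro y _
              exact List.mem_toFinset.2 (hcon y)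
            · intro y _ y' _ h
              exact (stb_inj h).2
          have h4 : Q1.toFinset.card ≤ W * W := (List.toFinset_card_le Q1).trans
            (hQ1.trans (Nat.mul_le_mul (h2.trans hL) (h2.trans hL)))
          rw [hcardV] at hc
          have h5 : W * W ≤ (W + 2) ^ 8 := by
            calc W * W ≤ (W + 2) ^ 2 := by nlinarith
              _ ≤ (W + 2) ^ 8 := Nat.pow_le_pow_right (by omega) (by omega)
          omega
        set F' := Function.update F us y' with hF'
        set OF' := mkO (RB n) (stb_Y (n s) Y fun u => some (F' u)) with hOF'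
        -- comparison of OF and OF'
        have cmp' : ∀ L0 ≤ W, (∀ L' < L0, stb_D W L' OF' = stb_D W L' OF) → ∀ x : List Bool,
            x.length ≤ L0 → (∀ y : List.Vector Bool (n s), x ≠ saddr us.1 y.1 true) →
            OF' x = OF x := by
          intro L0 hL0 h x hx hx'
          rw [hOF', hOF]
          apply stb_cmp hmono hnext hL0 h hx
          intro u y hxy
          have : u ≠ us := by
            rintro rfl
            exact hx' y hxy
          rw [hF', Function.update_of_ne this]
        have claim' : ∀ L0 ≤ L, stb_D W L0 OF' = stb_D W L0 OF := by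
          intro L0
          induction L0 using Nat.strong_induction_on with
          | _ L0 ih0 =>
            intro hL0
            have ih0' : ∀ L' < L0, stb_D W L' OF' = stb_D W L' OF :=
              fun L' h => ih0 L' h (by omega)
            have hsub : stb_D W L0 OF ⊆ stb_D W L0 OF' := by
              rintro ⟨T2, k2⟩ ⟨g1, g2, g3⟩
              refine ⟨g1, g2, ?_⟩
              have hmem : ((T2, k2) : Th × ℕ) ∈ stb_D W W OF := ⟨g1, g2.trans (hL0.trans hL), g3⟩
              apply hQf3 (T2, k2) hmem
              intro q hq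
              have hql := hQf2 (T2, k2) hmem q hq
              have g2' : Dep T2.2 k2 ≤ L0 := g2
              apply cmp' L0 (hL0.trans hL) ih0' q (by simp only at hql; omega)
              rintro y rfl
              exact husQ _ hmem y hq
            exact (hF L0 (by omega) F' ih0' hsub).symm
        -- OF' and Om
        have hne : ∀ x : List Bool, x.length ≤ L → x ≠ saddr us.1 y'.1 true → OF' x = Om x := by
          intro x hx hx'
          rw [hOF', hOm]
          apply stb_cmp hmono hnext hL _ hx
          · intro u y hxy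
            by_cases hu : u = us
            · subst hu
              rw [hF', hGm, Function.update_self, Function.update_self]
              constructor
              · intro h
                have := Option.some.inj h
                subst this
                exact absurd hxy hx'
              · intro h; simp at h
            · rw [hF', hGm, Function.update_of_ne hu, Function.update_of_ne hu]
          · intro L' hL'
            exact (claim' L' hL'.le).trans (ih' L' hL').symm
        apply hnot
        rw [← claim' L le_rfl]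
        refine ⟨h1, h2, ?_⟩
        apply hQ1s
        intro q hq
        have hql := hQ1l q hq
        have h2' : Dep T.2 k ≤ L := h2
        apply hne q (by omega)
        rintro rfl
        exact hy' hq
      · rintro ⟨T, k⟩ ⟨h1, h2, h3⟩
        refine ⟨h1, h2, ?_⟩
        have hmem : ((T, k) : Th × ℕ) ∈ stb_D W W OF := ⟨h1, h2.trans hL, h3⟩
        apply hQf3 (T, k) hmem
        intro q hq
        have hql := hQf2 (T, k) hmem q hq
        have h2' : Dep T.2 k ≤ L := h2
        apply cmp L hL ih' q (by simp only at hql; omega)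
        rintro y rfl
        exact husQ _ hmem y hq
  refine ⟨stb_Y (n s) Y Gm, stb_low, hgood _, ?_⟩
  show QB c n s Om
  unfold QB
  have hS : ShortB s.unpair.1 s.unpair.2 (NN c (n s)) Om := by
    apply hQ0s
    intro q hq
    apply cmp W le_rfl (fun L' h => claim L' h.le) q (hQ0l q hq).le
    rintro y rfl
    exact husQ0 y hq
  have hT : ¬ TotB (n s) Om := by
    rw [hOm, stb_tot hY]
    push Not
    exact ⟨us, by rw [hGm, Function.update_self]⟩
  exact ⟨fun h => absurd h hT, fun h => absurd hS h⟩

theorem QB_local {c : ℕ} {n : ℕ → ℕ} (hn : SeqB c n) (s : ℕ) (O O' : Lang)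
    (h : Agree (sl (n (s + 1))) O O') (hQ : QB c n s O) : QB c n s O' := by
  have hnn : n s < n (s + 1) := hn.1 (Nat.lt_succ_self s)
  have hnext := (hn.2 s).2
  have h1 : TotB (n s) O ↔ TotB (n s) O' := by
    unfold TotB
    refine forall_congr' fun u => forall_congr' fun hu => ?_
    rw [V_congr (O := O') (O' := O)]
    intro w hw
    apply h
    unfold sl
    omega
  have h2 : ∀ O1 O2 : Lang, Agree (sl (n (s + 1))) O1 O2 →
      ShortB s.unpair.1 s.unpair.2 (NN c (n s)) O1 →
      ShortB s.unpair.1 s.unpair.2 (NN c (n s)) O2 := by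
    intro O1 O2 h12 hS
    obtain ⟨Q, -, hQl, hQs⟩ := short_queries hS
    apply hQs
    intro q hq
    refine (h12 q ?_).symm
    have := hQl q hq
    unfold sl
    omega
  unfold QB at hQ ⊢
  rw [← h1, hQ, not_iff_not]
  exact ⟨h2 O O' h, h2 O' O fun x hx => (h x hx).symm⟩

end Pool.Agent.RF
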