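import Pool.Agent.Lib_helper78.RF.Params
import Pool.Agent.Lib_helper78.RF.F.DEP
import Pool.Agent.Lib_helper78.RF.F.ENC
import Pool.Agent.Lib_helper78.RF.F.PRG
import Pool.Agent.Lib_helper78.RF.F.VAL

/-!
# Block WIT (MP_5c38ab_lc)
-/

set_option autoImplicit false

namespace Pool.Agent.RF

open Pool.Agent.CK

theorem WIT_size_pow (k : ℕ) (hk : 1 ≤ k) : Nat.size (2 ^ k - 1) = k := by
  have h0 : 0 < 2 ^ k := by positivity
  apply le_antisymm
  · rw [Nat.size_le]; omega
  · have h1 : k - 1 < Nat.size (2 ^ k - 1) := by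
      rw [Nat.lt_size]
      have h2 : 2 ^ k = 2 * 2 ^ (k - 1) := by
        obtain ⟨m, rfl⟩ : ∃ m, k = m + 1 := ⟨k - 1, by omega⟩
        rw [Nat.add_sub_cancel, pow_succ]; ring
      have h3 : 0 < 2 ^ (k - 1) := by positivity
      omega
    omega

theorem WIT_size_zz (n : ℕ) : Nat.size (zz n) = (n + 2) ^ 5 := by
  unfold zz
  exact WIT_size_pow _ (Nat.one_le_pow _ _ (by omega))

theorem WIT_pow_ge (n : ℕ) : n + 1 ≤ (n + 2) ^ 5 := by
  have := prog1_time n
  omega

theorem MuT_wit (O : Lang) (u : List Bool) :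
    MuT O e0 (val u) (zz u.length) ↔ V O u = true := by
  have hV : V O u = true ↔ ∃ y : List Bool, y.length = u.length ∧ O (saddr u y true) = true := by
    simp [V]
  rw [hV]
  constructor
  · rintro ⟨w, -, c, a, b, h1, h2, -, h4⟩
    have hc : c = prog1_P true := cEnc_inj (val_inj h1)
    have ha : a = u := val_inj h2
    subst hc; subst ha
    rw [WIT_size_zz] at h4
    exact ⟨b, (prog1_acc O true _ b).2.1 h4⟩
  · rintro ⟨y, hy, hO⟩
    refine ⟨val y, ?_, prog1_P true, u, y, rfl, rfl, rfl, ?_⟩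
    · have h1 := (size_val y).2
      have h2 := WIT_pow_ge u.length
      have h3 : val y < 2 ^ ((u.length + 2) ^ 5) := by
        rw [← Nat.size_le]; omega
      unfold zz
      omega
    · rw [WIT_size_zz]
      exact (prog1_acc O true u y).2.2 ⟨hy, hO⟩

theorem WIT_tag_len (k : ℕ) : (tag k).length = k + 1 := by
  simp [tag]

theorem WIT_mu_len (e x z : Tm) : (mu e x z).enc.length =
    2 * z.enc.length + e.enc.length + x.enc.length + 62 := by
  simp only [mu, Fm.and, Fm.enc, Tm.enc, List.length_append, WIT_tag_len]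
  omega

theorem wit_len : ∃ c : ℕ, ∀ u : List Bool, Nat.size (val (pEnc [wit u])) ≤ NN c u.length ∧
    Nat.size e0 ≤ NN c u.length ∧ Nat.size (val u) ≤ NN c u.length ∧
    Nat.size (zz u.length) ≤ NN c u.length := by
  refine ⟨24 * Nat.size e0 + 300, fun u => ?_⟩
  have h1 : (wit u).enc.length = 2 * (num (zz u.length)).enc.length + (num e0).enc.length +
      (num (val u)).enc.length + 62 := WIT_mu_len _ _ _
  have h2 := num_len (zz u.length)
  have h3 := num_len e0
  have h4 := num_len (val u)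
  have h5 := (size_val u).2
  have h6 := WIT_size_zz u.length
  have h7 : (pEnc [wit u]).length = (wit u).enc.length := by simp [pEnc]
  have h8 := (size_val (pEnc [wit u])).2
  have h9 := prog1_time u.length
  unfold NN
  rw [h6] at h2
  generalize (u.length + 2) ^ 5 = P at *
  have h10 : Nat.size e0 ≤ Nat.size e0 * P := Nat.le_mul_of_pos_right _ (by omega)
  have h11 : (24 * Nat.size e0 + 300) * P = 24 * (Nat.size e0 * P) + 300 * P := by ring
  rw [h11]
  refine ⟨?_, ?_, ?_, ?_⟩ <;> omega

theorem not_rfnT_TJ {O : Lang} {j N : ℕ} {u : List Bool}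
    (h : O (tauB j ++ (wit u).enc) = true) (hV : V O u = false)
    (h1 : Nat.size (val (pEnc [wit u])) ≤ N) (h2 : Nat.size e0 ≤ N)
    (h3 : Nat.size (val u) ≤ N) (h4 : Nat.size (zz u.length) ≤ N) :
    ¬ RfnT O (TJ j) N := by
  intro hR
  have hM : MuT O e0 (val u) (zz u.length) := by
    refine hR e0 (val u) (zz u.length) [] h2 h3 h4 h1 ?_
    intro i φ hi
    right; left
    rcases i with _ | i
    · have hφ : φ = wit u := by
        simp only [List.nil_append, List.getElem?_cons_zero, Option.some.injEq] at hi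
        exact hi.symm
      subst hφ
      refine orAsk_true h ?_
      refine le_trans ?_ (clkS_ge _ _)
      set m := Nat.size (val (pEnc ([] ++ [mu (num e0) (num (val u)) (num (zz u.length))]))) with hm
      have hk : (TJ j).2 = exAsk (tauB j) (thp j).1.2 := rfl
      have hk2 : 4 * (tauB j).length + 8 ≤ (TJ j).2 := by
        rw [hk]; unfold exAsk; omega
      calc 4 * (tauB j).length + 8 ≤ (TJ j).2 := hk2
        _ ≤ 2 ^ (TJ j).2 := Nat.lt_two_pow_self.le
        _ ≤ (m + 2) ^ (TJ j).2 := Nat.pow_le_pow_left (by omega) _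
    · simp at hi
  rw [MuT_wit, hV] at hM
  exact Bool.noConfusion hM

theorem thp_surj (p : Th × Th) : ∃ j, thp j = p := by
  obtain ⟨⟨c1, k1⟩, ⟨c2, k2⟩⟩ := p
  refine ⟨Nat.pair (Nat.pair (Encodable.encode c1) k1) (Nat.pair (Encodable.encode c2) k2), ?_⟩
  simp [thp, Encodable.encodek]

end Pool.Agent.RF
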