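import Pool.Agent.Lib_helper78.RF.Params
import Pool.Agent.Lib_helper78.RF.F.BEX
import Pool.Agent.Lib_helper78.RF.F.DEP
import Pool.Agent.Lib_helper78.RF.F.ENC
import Pool.Agent.Lib_helper78.RF.F.MKO
import Pool.Agent.Lib_helper78.RF.F.PRG
import Pool.Agent.Lib_helper78.RF.F.PRV
import Pool.Agent.Lib_helper78.RF.F.REG
import Pool.Agent.Lib_helper78.RF.F.SEM
import Pool.Agent.Lib_helper78.RF.F.SEQ
import Pool.Agent.Lib_helper78.RF.F.SEX
import Pool.Agent.Lib_helper78.RF.F.STB
import Pool.Agent.Lib_helper78.RF.F.SUB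
import Pool.Agent.Lib_helper78.RF.F.WIT

/-!
# Block FNB (MP_5c38ab_lc)
-/

set_option autoImplicit false

namespace Pool.Agent.RF

open Pool.Agent.CK

theorem FNB_tag {i j : ℕ} {a b : List Bool} (h : tag i ++ a = tag j ++ b) : i = j ∧ a = b := by
  induction i generalizing j with
  | zero =>
    cases j with
    | zero => simpa [tag] using h
    | succ j => simp [tag, List.replicate_succ] at h
  | succ i ih =>
    cases j with
    | zero => simp [tag, List.replicate_succ] at h
    | succ j =>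
      have h' : tag i ++ a = tag j ++ b := by
        simpa [tag, List.replicate_succ] using h
      obtain ⟨h1, h2⟩ := ih h'
      exact ⟨by rw [h1], h2⟩

theorem FNB_poly (a b : ℕ) : ∃ C : ℕ, ∀ k : ℕ, (k + 4) ^ a + b ≤ k ^ C + C := by
  obtain ⟨q, hq⟩ : ∃ q : ℕ, q = 5 ^ a := ⟨_, rfl⟩
  refine ⟨3 * a + q + b, fun k => ?_⟩
  rcases Nat.lt_or_ge k 2 with hk | hk
  · have h1 : (k + 4) ^ a ≤ q := hq ▸ Nat.pow_le_pow_left (by omega) a
    omega
  · have h1 : k + 4 ≤ k ^ 3 := by
      have : k ^ 3 = k * k * k := by ring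
      nlinarith
    have h2 : (k + 4) ^ a ≤ k ^ (3 * a) := by
      rw [pow_mul]
      exact Nat.pow_le_pow_left h1 a
    have h3 : k ^ (3 * a) ≤ k ^ (3 * a + q + b) :=
      Nat.pow_le_pow_right (by omega) (by omega)
    omega

/-- the facts about the oracle that are used -/
theorem FNB_oracle : ∃ (c : ℕ) (n : ℕ → ℕ) (O : Lang),
    (∀ u : List Bool, Nat.size (val (pEnc [wit u])) ≤ NN c u.length ∧
      Nat.size e0 ≤ NN c u.length ∧ Nat.size (val u) ≤ NN c u.length ∧
      Nat.size (zz u.length) ≤ NN c u.length) ∧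
    (∀ s, QB c n s O) ∧
    (∀ s, O (true :: false :: s) = true ↔ CodeB O s) ∧
    (∀ s, O (true :: true :: false :: s) = true ↔ BaseP (gap n) O s) ∧
    ∀ s, O (true :: true :: true :: s) = true ↔ ThirdB n s := by
  obtain ⟨c, hc⟩ := wit_len
  obtain ⟨n, hn⟩ := exists_seqB c
  have hb : StrictMono (fun s => sl (n s)) := by
    intro a b hab
    have := hn.1 hab
    simp only [sl]
    omega
  obtain ⟨Y, hY⟩ := stage_lemma (RB_local n) (fun s => sl (n s)) hb (QB c n)
    (fun s O O' h hQ => QB_local hn s O O' h hQ) (fun s Y h => stageB hn s Y h)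
  refine ⟨c, n, mkO (RB n) Y, hc, hY, fun s => ?_, fun s => ?_, fun s => ?_⟩
  · rw [mkO_eq (RB_local n) Y (true :: false :: s)]
    simp [RB, reg]
    all_goals exact @decide_eq_true_iff _ (Classical.propDecidable _)
  · rw [mkO_eq (RB_local n) Y (true :: true :: false :: s)]
    simp [RB, reg]
    all_goals exact @decide_eq_true_iff _ (Classical.propDecidable _)
  · rw [mkO_eq (RB_local n) Y (true :: true :: true :: s)]
    simp [RB, reg]

theorem finalB : ∃ O : Lang, (∃ B, Base O B ∧ ∀ σ, S12 σ → B σ) ∧ ∀ B, Base O B →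
    (∃ S, InT O B S ∧ ∀ T, InT O B T → PolyBounded O S (Con T)) ∧
    ∀ S, InT O B S → ∃ T, InT O B T ∧ ¬ PolyBounded O S (RFN T) := by
  obtain ⟨c, n, O, hc, hQ, hC, hP, hE⟩ := FNB_oracle
  refine ⟨O, base_exists hP, fun B hB => ⟨?_, fun S hS => ?_⟩⟩
  · refine S_exists hB Con ?_ ?_ Con_len
    · intro σ hσ
      rw [hC] at hσ
      obtain ⟨T, m, k, h1, -, -, h4⟩ := hσ
      have h5 : σ = pad m (Con T k) := by
        refine (enc_inj (a := []) (b := []) ?_).1
        rw [List.append_nil, List.append_nil, h1]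
      subst h5
      refine ⟨(pad_closed _ _).2 (closed_Con _ _), (pad_true _ _ _).2 ?_⟩
      intro v
      exact (holds_Con O v T k).2 (h4 k le_rfl)
    · intro T hT
      obtain ⟨C, hC'⟩ := FNB_poly (T.2 + 2) (idx T)
      refine ⟨C, fun k => ⟨Dep T.2 k + idx T, ?_, ?_⟩⟩
      · have h1 := dep_poly T.2 k
        have h2 := hC' k
        omega
      · rw [hC]
        exact ⟨T, Dep T.2 k + idx T, k, rfl, by omega, by omega, fun k' _ => inT_conT hT k'⟩
  · obtain ⟨TB, hTB1, hTB2⟩ := hB.dec
    obtain ⟨j, hj⟩ := thp_surj (TB, S)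
    have hj1 : (thp j).1 = TB := by rw [hj]
    have hj2 : (thp j).2 = S := by rw [hj]
    have hTJ1 : (TJ j).1 = orAsk (tauB j) TB.1 := by simp [TJ, hj1]
    have hTJ2 : (TJ j).2 = exAsk (tauB j) TB.2 := by simp [TJ, hj1]
    have htau : ∀ x : List Bool, tauB j ++ x = true :: true :: true :: (tag j ++ x) := by
      intro x; simp [tauB]
    -- the axioms of the theory
    have hAx : ∀ σ, Ax O (TJ j) σ ↔ ThirdB n (tag j ++ σ.enc) ∨ B σ := by
      intro σ
      unfold Ax
      rw [hTJ1, hTJ2, (orAsk_spec hTB1 σ.enc).2, htau, hE]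
      have h1 := hTB2 σ
      unfold Ax at h1
      rw [h1]
    -- totality
    have hTot : ∀ t : ℕ, t.unpair.1 = j → TotB (n t) O := by
      intro t ht
      by_contra hcon
      have hS1 : ShortB t.unpair.1 t.unpair.2 (NN c (n t)) O := by
        by_contra hns
        exact hcon ((hQ t).2 hns)
      rw [ht] at hS1
      obtain ⟨l, hl, -⟩ := hS1
      rw [hj2] at hl
      unfold TotB at hcon
      push Not at hcon
      obtain ⟨u, hu, hV⟩ := hcon
      have hV' : V O u = false := by
        cases h : V O u with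
        | false => rfl
        | true => exact absurd h hV
      have hO : O (tauB j ++ (wit u).enc) = true := by
        rw [htau, hE]
        exact ⟨j, t, u, rfl, ht, hu⟩
      obtain ⟨w1, w2, w3, w4⟩ := hc u
      rw [hu] at w1 w2 w3 w4
      rw [← hu] at hl
      have hne : ¬ RfnT O (TJ j) (NN c u.length) :=
        not_rfnT_TJ hO hV' (by rw [hu]; exact w1) (by rw [hu]; exact w2) (by rw [hu]; exact w3)
          (by rw [hu] at *; exact w4)
      have hnt : ¬ (RFN (TJ j) (NN c u.length)).True O := fun h =>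
        hne ((holds_RFN O (fun _ => 0) _ _).1 (h _))
      have hp1 : Provable (Ax O S) (.neg (RFN (TJ j) (NN c u.length))) :=
        prv_mono hS.ext (hB.refRFN _ _ hnt)
      have hp2 : Provable (Ax O S) (RFN (TJ j) (NN c u.length)) := ⟨l, hl⟩
      exact hS.cons (prv_bot hp2 hp1)
    -- the axioms are closed and true
    have hwit : ∀ σ : Fm, ThirdB n (tag j ++ σ.enc) → ∃ u, σ = wit u ∧ V O u = true := by
      rintro σ ⟨j', t, u, h1, h2, h3⟩
      obtain ⟨h4, h5⟩ := FNB_tag h1
      have h6 : σ = wit u := by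
        refine (enc_inj (a := []) (b := []) ?_).1
        rw [List.append_nil, List.append_nil, h5]
      exact ⟨u, h6, hTot t (by rw [h2, ← h4]) u h3⟩
    have htrue : ∀ σ, Ax O (TJ j) σ → σ.True O := by
      intro σ hσ
      rcases (hAx σ).1 hσ with h | h
      · obtain ⟨u, rfl, hu⟩ := hwit σ h
        intro v
        exact (holds_mu O v _ _ _).2 ((MuT_wit O u).2 hu)
      · exact hB.isTrue σ h
    refine ⟨TJ j, ⟨?_, ?_, ?_, ?_⟩, ?_⟩
    · intro x
      rw [hTJ1, hTJ2]
      exact (orAsk_spec hTB1 x).1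
    · intro σ hσ
      exact (hAx σ).2 (Or.inr hσ)
    · intro σ hσ
      rcases (hAx σ).1 hσ with h | h
      · obtain ⟨u, rfl, -⟩ := hwit σ h
        exact closed_mu _ _ _
      · exact hB.closed σ h
    · intro hF
      have h1 := sound htrue hF (fun _ => 0)
      exact h1 rfl
    · rintro ⟨a, ha⟩
      have h1 : (Nat.pair j a).unpair.1 = j := by rw [Nat.unpair_pair]
      have h2 : (Nat.pair j a).unpair.2 = a := by rw [Nat.unpair_pair]
      have h3 := hTot _ h1
      have h4 := (hQ (Nat.pair j a)).1 h3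
      apply h4
      rw [h1, h2]
      obtain ⟨l, hl1, hl2⟩ := ha (NN c (n (Nat.pair j a)))
      exact ⟨l, by rw [hj2]; exact hl1, hl2⟩

example : type_of% @finalB := @finalB

end Pool.Agent.RF
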