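import Pool.Agent.Lib_helper78.RF.Params
import Pool.Agent.Lib_helper74.CKF.ZONE
import Pool.Agent.Lib_helper78.RF.F.DEP
import Pool.Agent.Lib_helper78.RF.F.MKO
import Pool.Agent.Lib_helper78.RF.F.PRV
import Pool.Agent.Lib_helper78.RF.F.QRY
import Pool.Agent.Lib_helper78.RF.F.REG

set_option autoImplicit false

namespace Pool.Agent.RF

open Pool.Agent.CK

theorem STA_agree_mono {N N' : ℕ} {O O' : Lang} (h : N ≤ N') (h' : Agree N' O O') :
    Agree N O O' := fun x hx => h' x (lt_of_lt_of_le hx h)

theorem STA_dead_congr {O O' : Lang} {T : Th} {N : ℕ} (h : Agree N O O') :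
    DeadA O T N ↔ DeadA O' T N := by
  constructor
  · rintro ⟨k, hk, hr⟩
    exact ⟨k, hk, fun h' => hr ((RfnT_congr (STA_agree_mono hk h)).2 h')⟩
  · rintro ⟨k, hk, hr⟩
    exact ⟨k, hk, fun h' => hr ((RfnT_congr (STA_agree_mono hk h)).1 h')⟩

/-- the code condition in one direction -/
theorem STA_code {n : ℕ → ℕ} (hn : SeqA n) {s : ℕ} {O O' : Lang}
    (hbase : Agree (sl (n s)) O O') (hk' : ¬ KillA n s O') {x : List Bool}
    (hx : x.length < sl (n (s + 1))) (h : CodeA n O x) : CodeA n O' x := by
  obtain ⟨T, m, k, rfl, hm, hidx, hall⟩ := h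
  refine ⟨T, m, k, rfl, hm, hidx, ?_⟩
  rw [pad_len] at hx
  have hm' : m < sl (n (s + 1)) := by omega
  have hs : (idx T + 2) ^ 2 ≤ s := by
    by_contra hcon
    have h1 : n (s + 1) ≤ n ((idx T + 2) ^ 2) := hn.1.monotone (by omega)
    have h2 : sl (n (s + 1)) ≤ sl (n ((idx T + 2) ^ 2)) := by unfold sl; omega
    omega
  intro k' hk
  have hd : Dep T.2 k' ≤ m := (dep_mono hk).trans hm
  by_cases hdead : DeadA O' T (sl (n s))
  · obtain ⟨k0, h0, h1⟩ := (STA_dead_congr hbase).2 hdead
    have hlt : k < k0 := by
      by_contra hcon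
      exact h1 (hall k0 (by omega))
    have h2 : Dep T.2 k' ≤ sl (n s) := (dep_mono (by omega)).trans h0
    exact (RfnT_congr (STA_agree_mono h2 hbase)).1 (hall k' hk)
  · by_contra hcon
    exact hk' ⟨T, hs, hdead, k', by omega, hcon⟩

theorem STA_code_iff {n : ℕ → ℕ} (hn : SeqA n) {s : ℕ} {O O' : Lang}
    (hbase : Agree (sl (n s)) O O') (hk : ¬ KillA n s O) (hk' : ¬ KillA n s O') {x : List Bool}
    (hx : x.length < sl (n (s + 1))) : CodeA n O x ↔ CodeA n O' x :=
  ⟨STA_code hn hbase hk' hx, STA_code hn (fun y hy => (hbase y hy).symm) hk hx⟩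

theorem agreeA {n : ℕ → ℕ} (hn : SeqA n) {s : ℕ} {Y Y' : Lang} {a : List Bool}
    (ha : sl (n s) ≤ a.length)
    (hag : ∀ x : List Bool, x ≠ a → Y x = Y' x)
    (hk : ¬ KillA n s (mkO (RA n) Y)) (hk' : ¬ KillA n s (mkO (RA n) Y')) :
    ∀ x : List Bool, x ≠ a → x.length < sl (n (s + 1)) → mkO (RA n) Y x = mkO (RA n) Y' x := by
  have hbase : Agree (sl (n s)) (mkO (RA n) Y) (mkO (RA n) Y') := by
    refine mkO_agree (RA_local n) ?_
    intro x hx
    exact hag x (fun h => by subst h; omega)
  intro x hxa hx
  rw [mkO_eq (RA_local n), mkO_eq (RA_local n)]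
  by_cases hf : x.head? = some false
  · rw [if_pos hf, if_pos hf]; exact hag x hxa
  · rw [if_neg hf, if_neg hf]
    unfold RA
    match x, hf with
    | [], _ => rfl
    | [true], _ => rfl
    | [true, true], _ => rfl
    | true :: false :: s', _ =>
      simp only [reg]
      congr 1
      apply propext
      exact STA_code_iff hn hbase hk hk' (by simp only [List.length_cons] at hx; omega)
    | true :: true :: false :: s', _ =>
      simp only [reg]
      congr 1
      apply propext
      exact base_gap hn.1 hbase s' (by simp only [List.length_cons] at hx; omega)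
    | true :: true :: true :: s', _ => rfl

/-- V only depends on the secrets -/
theorem STA_V_secret {R : Lang → List Bool → Bool} (hR : Local R) (Y : Lang) (x : List Bool) :
    V (mkO R Y) x = V Y x := by
  unfold V
  congr 1
  apply propext
  have h : ∀ y, mkO R Y (saddr x y true) = Y (saddr x y true) := by
    intro y
    rw [mkO_eq hR, if_pos]
    rfl
  simp only [h]

theorem stageA {n : ℕ → ℕ} (hn : SeqA n) (s : ℕ) (Y : Lang)
    (hY : ∀ x : List Bool, sl (n s) ≤ x.length → Y x = false) :
    ∃ Y' : Lang, Agree (sl (n s)) Y Y' ∧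
      (∀ x : List Bool, sl (n (s + 1)) ≤ x.length → Y' x = false) ∧
      QA n s (mkO (RA n) Y') := by
  classical
  have hlt : n s < n (s + 1) := hn.1 (Nat.lt_succ_self s)
  by_cases hE : QA n s (mkO (RA n) Y)
  · exact ⟨Y, fun _ _ => rfl, fun x hx => hY x (by unfold sl at *; omega), hE⟩
  · have hkill : ¬ KillA n s (mkO (RA n) Y) := fun h => hE (Or.inl h)
    have hne : NL s.unpair.1 (mkO (RA n) Y) (ones (n s)) ≠ V (mkO (RA n) Y) (ones (n s)) :=
      fun h => hE (Or.inr h)
    have hones : (ones (n s)).length = n s := List.length_replicate ..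
    have hV : V (mkO (RA n) Y) (ones (n s)) = false := by
      rw [STA_V_secret (RA_local n)]
      unfold V
      rw [decide_eq_false_iff_not]
      rintro ⟨y, hy, hO⟩
      rw [hY] at hO
      · exact absurd hO (by simp)
      · rw [saddr_length hy.symm, hones]; unfold sl; omega
    rw [hV] at hne
    have hNL : NL s.unpair.1 (mkO (RA n) Y) (ones (n s)) = true := by
      cases h : NL s.unpair.1 (mkO (RA n) Y) (ones (n s)) with
      | true => rfl
      | false => exact absurd h hne
    unfold NL at hNL
    rw [decide_eq_true_eq] at hNL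
    obtain ⟨y0, hy0, hacc⟩ := hNL
    rw [hones] at hy0 hacc
    set r := s.unpair.1 with hr
    have hrs : r ≤ s := Nat.unpair_left_le s
    have hexr : ex r ≤ r := Nat.unpair_right_le r
    have hpow1 : (n s + 2) ^ ex r ≤ (n s + 2) ^ s :=
      Nat.pow_le_pow_right (by omega) (by omega)
    have hb1 := (hn.2 s).1
    have hb2 := (hn.2 s).2
    have hpow2 : (n s + 2) ^ (s + 2) = (n s + 2) ^ s * ((n s + 2) * (n s + 2)) := by ring
    have hpos : 1 ≤ (n s + 2) ^ s := Nat.one_le_pow _ _ (by omega)
    have hpow3 : n s + (n s + 2) ^ s + (n s + 2) ^ s ≤ (n s + 2) ^ (s + 2) := by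
      have e1 : (n s + 2) ^ s * ((n s + 2) * (n s + 2)) =
          (n s + 2) ^ s * (n s * n s) + 4 * ((n s + 2) ^ s * n s) + 4 * (n s + 2) ^ s := by ring
      have e2 : n s ≤ (n s + 2) ^ s * n s := Nat.le_mul_of_pos_left _ hpos
      rw [hpow2, e1]
      have e3 := Nat.zero_le ((n s + 2) ^ s * (n s * n s))
      omega
    obtain ⟨Q, hQ1, hQ2, hQ3⟩ := run_queries (mkO (RA n) Y) (prog r) (ones (n s)) y0
      ((n s + 2) ^ ex r) (n (s + 1)) (by rw [hones]; omega) (by omega)
    -- choose a new secret
    obtain ⟨y, hy, hyQ⟩ : ∃ y : List Bool, y.length = n s ∧ saddr (ones (n s)) y true ∉ Q := by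
      by_contra hcon
      push Not at hcon
      have hinj : Function.Injective (fun v : List.Vector Bool (n s) =>
          saddr (ones (n s)) v.toList true) := by
        intro v w hvw
        have := addr_saddr_inj (by rw [hones, List.Vector.toList_length])
          (by rw [hones, List.Vector.toList_length]) hvw
        exact List.Vector.toList_injective this.2.1
      have hsub : Finset.univ.image (fun v : List.Vector Bool (n s) =>
          saddr (ones (n s)) v.toList true) ⊆ Q.toFinset := by
        intro w hw
        rw [Finset.mem_image] at hw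
        obtain ⟨v, -, rfl⟩ := hw
        exact List.mem_toFinset.2 (hcon _ (List.Vector.toList_length v))
      have h1 := Finset.card_le_card hsub
      rw [Finset.card_image_of_injective _ hinj, Finset.card_univ, card_vector,
        Fintype.card_bool] at h1
      have h2 := Q.toFinset_card_le
      omega
    set a := saddr (ones (n s)) y true with ha
    have hal : a.length = sl (n s) := by
      rw [ha, saddr_length (by rw [hones, hy]), hones]; rfl
    set Y' : Lang := fun x => if x = a then true else Y x with hY'
    have hag : ∀ x, x ≠ a → Y x = Y' x := by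
      intro x hx
      rw [hY']; simp only [if_neg hx]
    refine ⟨Y', ?_, ?_, ?_⟩
    · intro x hx
      exact hag x (fun h => by subst h; omega)
    · intro x hx
      have hx' : x ≠ a := by
        rintro rfl
        rw [hal] at hx
        unfold sl at hx
        omega
      rw [← hag x hx']
      exact hY x (by unfold sl at *; omega)
    · by_cases hk : KillA n s (mkO (RA n) Y')
      · exact Or.inl hk
      · right
        have hagree := agreeA hn (by rw [hal]) hag hkill hk
        have hV' : V (mkO (RA n) Y') (ones (n s)) = true := by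
          rw [STA_V_secret (RA_local n)]
          unfold V
          rw [decide_eq_true_eq]
          refine ⟨y, by rw [hones, hy], ?_⟩
          rw [← ha, hY']
          simp
        rw [hV']
        unfold NL
        rw [decide_eq_true_eq]
        refine ⟨y0, by rw [hones]; exact hy0, ?_⟩
        rw [hones]
        have hrun := hQ3 (mkO (RA n) Y') (fun q hq => by
          refine (hagree q ?_ ?_).symm
          · rintro rfl; exact hyQ hq
          · have := hQ2 q hq
            unfold sl; omega)
        unfold accB at hacc ⊢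
        rw [hrun]
        exact hacc

theorem QA_local {n : ℕ → ℕ} (hn : SeqA n) (s : ℕ) (O O' : Lang)
    (h : Agree (sl (n (s + 1))) O O') (hQ : QA n s O) : QA n s O' := by
  have hlt : n s < n (s + 1) := hn.1 (Nat.lt_succ_self s)
  have hones : (ones (n s)).length = n s := List.length_replicate ..
  rcases hQ with ⟨T, h1, h2, h3⟩ | hQ
  · left
    refine ⟨T, h1, ?_, (STA_dead_congr h).1 h3⟩
    intro h4
    exact h2 ((STA_dead_congr (STA_agree_mono (by unfold sl; omega) h)).2 h4)
  · right
    have hrs : s.unpair.1 ≤ s := Nat.unpair_left_le s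
    have hb2 := (hn.2 s).2
    rw [← NL_congr s.unpair.1 O O' (ones (n s)), hQ]
    · refine V_congr (fun w hw => ?_)
      rw [hones] at hw
      exact h w (by unfold sl; omega)
    · intro w hw
      rw [hones] at hw
      have : (n s + 2) ^ (s.unpair.1 + 2) ≤ (n s + 2) ^ (s + 2) :=
        Nat.pow_le_pow_right (by omega) (by omega)
      exact h w (by unfold sl; omega)

end Pool.Agent.RF
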