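import Pool.Agent.Lib_helper78.RF.Params
import Pool.Agent.Lib_helper78.RF.F.BEX
import Pool.Agent.Lib_helper78.RF.F.DEP
import Pool.Agent.Lib_helper78.RF.F.ENC
import Pool.Agent.Lib_helper78.RF.F.MKO
import Pool.Agent.Lib_helper78.RF.F.PRV
import Pool.Agent.Lib_helper78.RF.F.REG
import Pool.Agent.Lib_helper78.RF.F.SEM
import Pool.Agent.Lib_helper78.RF.F.SEQ
import Pool.Agent.Lib_helper78.RF.F.SEX
import Pool.Agent.Lib_helper78.RF.F.STA

set_option autoImplicit false

namespace Pool.Agent.RF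

open Pool.Agent.CK

theorem FNA_idx_inj {T T' : Th} (h : idx T = idx T') : T = T' := by
  unfold idx at h
  have h1 := congrArg Nat.unpair h
  rw [Nat.unpair_pair, Nat.unpair_pair] at h1
  have h2 := (Prod.mk.inj h1)
  exact Prod.ext (Encodable.encode_injective h2.1) h2.2

theorem FNA_dead_mono {O : Lang} {T : Th} {N N' : ℕ} (h : N ≤ N') (hd : DeadA O T N) :
    DeadA O T N' := by
  obtain ⟨k, h1, h2⟩ := hd
  exact ⟨k, h1.trans h, h2⟩

theorem FNA_pair_lt {i j : ℕ} (h : j ≤ i + 1) : Nat.pair i j < (i + 2) ^ 2 := by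
  have := Nat.pair_lt_max_add_one_sq i j
  have h2 : (max i j + 1) ^ 2 ≤ (i + 2) ^ 2 := Nat.pow_le_pow_left (by omega) 2
  omega

theorem FNA_not_coNP {n : ℕ → ℕ} (hn : StrictMono n) {O : Lang} (h : ∀ s, QA n s O) :
    ¬ InNP O (fun x => !V O x) := by
  classical
  intro hNP
  obtain ⟨i, hi⟩ := exists_NL hNP
  have hkill : ∀ j, KillA n (Nat.pair i j) O := by
    intro j
    rcases h (Nat.pair i j) with hk | hq
    · exact hk
    · rw [Nat.unpair_pair] at hq
      simp only [hi] at hq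
      cases hv : V O (ones (n (Nat.pair i j))) <;> rw [hv] at hq <;> simp at hq
  choose T h1 h2 h3 using hkill
  have hsl : Monotone (fun s => sl (n s)) := by
    intro a b hab
    have := hn.monotone hab
    change 2 * n a + 2 ≤ 2 * n b + 2
    omega
  have hinj : ∀ j j', j < j' → T j ≠ T j' := by
    intro j j' hjj hT
    have hp : Nat.pair i j + 1 ≤ Nat.pair i j' := Nat.pair_lt_pair_right i hjj
    have := FNA_dead_mono (hsl hp) (h3 j)
    rw [hT] at this
    exact h2 j' this
  have hlt : ∀ j ≤ i + 1, idx (T j) < i := by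
    intro j hj
    have h4 := h1 j
    have h5 := FNA_pair_lt hj
    have h6 : (idx (T j) + 2) ^ 2 < (i + 2) ^ 2 := lt_of_le_of_lt h4 h5
    have h7 := lt_of_pow_lt_pow_left₀ 2 (by omega) h6
    omega
  have hcard : (Finset.range (i + 2)).card ≤ (Finset.range i).card := by
    apply Finset.card_le_card_of_injOn (fun j => idx (T j))
    · intro j hj
      have hj' : j < i + 2 := by simpa using hj
      simpa using hlt j (by omega)
    · intro j hj j' hj' hjj
      by_contra hne
      have hT := FNA_idx_inj hjj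
      rcases Nat.lt_or_gt_of_ne hne with hl | hl
      · exact hinj j j' hl hT
      · exact hinj j' j hl hT.symm
  rw [Finset.card_range, Finset.card_range] at hcard
  omega

theorem FNA_inNP_V (O : Lang) : InNP O (V O) := by
  refine ⟨prog1_P true, 5, fun x y _ => (prog1_acc O true x y).1, fun x => ?_⟩
  simp only [V, decide_eq_true_eq]
  constructor
  · rintro ⟨y, hy, hO⟩
    refine ⟨y, ?_, (prog1_acc O true x y).2.2 ⟨hy, hO⟩⟩
    have := prog1_time x.length
    omega
  · rintro ⟨y, -, hA⟩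
    exact ⟨y, (prog1_acc O true x y).2.1 hA⟩

theorem FNA_poly (k c : ℕ) : ∃ C, ∀ n : ℕ, (n + 4) ^ k + c ≤ n ^ C + C := by
  refine ⟨3 * k + c + 5 ^ k, fun n => ?_⟩
  have h5 : 1 ≤ 5 ^ k := Nat.one_le_pow _ _ (by norm_num)
  rcases Nat.lt_or_ge n 2 with h | h
  · have h1 : (n + 4) ^ k ≤ 5 ^ k := Nat.pow_le_pow_left (by omega) k
    have h2 := Nat.zero_le (n ^ (3 * k + c + 5 ^ k))
    omega
  · have h1 : n + 4 ≤ n ^ 3 := by
      have : n ^ 3 = n * n * n := by ring
      rw [this]
      nlinarith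
    have h2 : (n + 4) ^ k ≤ n ^ (3 * k) := by
      rw [pow_mul]
      exact Nat.pow_le_pow_left h1 k
    have h3 : n ^ (3 * k) ≤ n ^ (3 * k + c + 5 ^ k) :=
      Nat.pow_le_pow_right (by omega) (by omega)
    omega

theorem finalA : ∃ O : Lang, (∃ L, InNP O L ∧ ¬ InNP O (fun x => !L x)) ∧
    (∃ B, Base O B ∧ ∀ σ, S12 σ → B σ) ∧
    ∀ B, Base O B → ∃ S, InT O B S ∧ ∀ T, InT O B T → PolyBounded O S (RFN T) := by
  obtain ⟨n, hn⟩ := exists_seqA
  have hb : StrictMono (fun s => sl (n s)) := by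
    intro a b hab
    have := hn.1 hab
    change 2 * n a + 2 < 2 * n b + 2
    omega
  obtain ⟨Y, hY⟩ := stage_lemma (RA_local n) (fun s => sl (n s)) hb (QA n)
    (fun s O O' h hQ => QA_local hn s O O' h hQ) (fun s Y hY => stageA hn s Y hY)
  set O := mkO (RA n) Y with hO
  have hcode : ∀ s, O (true :: false :: s) = true ↔ CodeA n O s := by
    intro s
    rw [hO, mkO_eq (RA_local n), if_neg (by simp), ← hO]
    simp [RA, reg]
  have hbase : ∀ s, O (true :: true :: false :: s) = true ↔ BaseP (gap n) O s := by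
    intro s
    rw [hO, mkO_eq (RA_local n), if_neg (by simp), ← hO]
    simp [RA, reg]
  refine ⟨O, ⟨V O, FNA_inNP_V O, FNA_not_coNP hn.1 hY⟩, base_exists hbase, ?_⟩
  intro B hB
  refine S_exists hB RFN ?_ ?_ RFN_len
  · intro σ hσ
    rw [hcode] at hσ
    obtain ⟨T, m, k, h1, h2, h3, h4⟩ := hσ
    have h5 : σ = pad m (RFN T k) := by
      refine (enc_inj (a := []) (b := []) ?_).1
      rw [List.append_nil, List.append_nil]
      exact h1
    subst h5
    refine ⟨(pad_closed m _).2 (closed_RFN T k), (pad_true O m _).2 ?_⟩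
    intro v
    exact (holds_RFN O v T k).2 (h4 k le_rfl)
  · intro T hT
    obtain ⟨C, hC⟩ := FNA_poly (T.2 + 2) (sl (n ((idx T + 2) ^ 2)))
    refine ⟨C, fun k => ⟨Dep T.2 k + sl (n ((idx T + 2) ^ 2)), ?_, ?_⟩⟩
    · have := dep_poly T.2 k
      have := hC k
      omega
    · rw [hcode]
      exact ⟨T, _, k, rfl, by omega, by omega, fun k' _ => inT_rfnT hB hT k'⟩

end Pool.Agent.RF
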