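import Pool.Agent.Lib_helper78.RF.F.FNA
import Pool.Agent.Lib_helper74.PHS.Glue
import Pool.Agent.Lib_helper37.HDH.Num

/-!
# An oracle with an infinite polynomial hierarchy relative to which the negated form of Q1 holds
-/

set_option autoImplicit false

namespace Pool.Agent.RF

open Pool.Agent.CK Pool.Agent.PHS

/-- the level and the indices of a language of the hierarchy -/
noncomputable def dcd (e : ℕ) : ℕ × List ℕ := (Encodable.decode (α := ℕ × List ℕ) e).getD (0, [])

/-- the alternating search problem in the secret part of level `a` -/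
def Srch (k m a : ℕ) (O : Lang) : Prop :=
  alt (2 * k + 1) m (fun b => ¬ ∃ l' : List Bool, b.length + l'.length = (ones a).length ∧
    O (saddr (ones a) (b ++ l') true) = true)

/-- the goal of a stage -/
def QP (n m : ℕ → ℕ) (s : ℕ) (O : Lang) : Prop :=
  KillA n s O ∨ ¬ (SL (dcd s.unpair.1).1 (dcd s.unpair.1).2 O (ones (m s) ++ false :: ones (n s)) =
    true ↔ Srch (dcd s.unpair.1).1 (m s) (n s) O)

/-- the requirements on one level `a = (2k+1) m`, the next level is `b` -/
def GoodLev (k : ℕ) (s' : List ℕ) (m a b : ℕ) : Prop :=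
  a = (2 * k + 1) * m ∧
  (∀ F : (List (X m) → Bool) → Lang,
    (∀ w : List Bool, w.length < sl b → CertC 1 (fun v => F v w)) →
    (∀ (v : List (X m) → Bool) (l : List (X m)), l.length = 2 * k + 1 →
      (v l = true ↔ ¬ ∃ l' : List Bool, (flat l).length + l'.length = (ones a).length ∧
        F v (saddr (ones a) (flat l ++ l') true) = true)) →
    ∃ v : List (X m) → Bool, ¬ (SL k s' (F v) (ones m ++ false :: ones a) = true ↔
      Srch k m a (F v))) ∧
  ∀ O O' : Lang, Agree (sl b) O O' →
    SL k s' O (ones m ++ false :: ones a) = SL k s' O' (ones m ++ false :: ones a)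

theorem FNP_ones (a : ℕ) : (ones a).length = a := List.length_replicate ..

theorem FNP_level (k : ℕ) (s' : List ℕ) : ∃ g : ℕ → ℕ, ∃ m0 : ℕ, ∀ m ≥ m0, ∀ b > g m,
    GoodLev k s' m ((2 * k + 1) * m) b := by
  obtain ⟨C, m0, hkill⟩ := kill (Pool.Agent.HDH.dh) k s'
  obtain ⟨E, hE⟩ := SL_congr k s'
  refine ⟨fun m => m ^ C + (m + 1 + (2 * k + 1) * m + 2) ^ E, max m0 (2 * k + 1), ?_⟩
  intro m hm b hb
  have hb : m ^ C + (m + 1 + (2 * k + 1) * m + 2) ^ E < b := hb
  have hm0 : m0 ≤ m := (le_max_left _ _).trans hm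
  have hmk : 2 * k + 1 ≤ m := (le_max_right _ _).trans hm
  have hbs : b < sl b := by unfold sl; omega
  refine ⟨rfl, ?_, ?_⟩
  · intro F hF hreal
    refine hkill m hm0 (ones ((2 * k + 1) * m)) ?_ F ?_ hreal
    · rw [FNP_ones, pow_two]
      exact Nat.mul_le_mul_right _ hmk
    · intro w hw
      refine CertC.mono (hF w ?_) (Nat.one_le_pow _ _ (by omega))
      have h2 := Nat.zero_le ((m + 1 + (2 * k + 1) * m + 2) ^ E)
      have h1 : m ^ C < b := by omega
      omega
  · intro O O' h
    refine hE O O' _ fun w hw => h w ?_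
    have h1 : (ones m ++ false :: ones ((2 * k + 1) * m)).length + 2 =
        m + 1 + (2 * k + 1) * m + 2 := by
      rw [List.length_append, List.length_cons, FNP_ones, FNP_ones]
      ring
    rw [h1] at hw
    have h2 := Nat.zero_le (m ^ C)
    have h3 : (m + 1 + (2 * k + 1) * m + 2) ^ E < b := by omega
    omega

theorem exists_seqP : ∃ n m : ℕ → ℕ, SeqA n ∧ ∀ s,
    GoodLev (dcd s.unpair.1).1 (dcd s.unpair.1).2 (m s) (n s) (n (s + 1)) := by
  choose g m0 hg using FNP_level
  set K : ℕ → ℕ := fun s => (dcd s.unpair.1).1 with hK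
  set G : ℕ → ℕ → ℕ := fun s => g (dcd s.unpair.1).1 (dcd s.unpair.1).2 with hG
  set M : ℕ → ℕ := fun s => m0 (dcd s.unpair.1).1 (dcd s.unpair.1).2 with hM
  have hP : ∀ s, ∀ᶠ m : ℕ in Filter.atTop,
      M s ≤ m ∧ ((2 * K s + 1) * m + 2) ^ s < 2 ^ ((2 * K s + 1) * m) := by
    intro s
    refine (Filter.eventually_ge_atTop (M s)).and ?_
    have h1 := SEQ_lt (SEQ_pow (SEQ_add SEQ_id (SEQ_const 2)) s)
    have h2 : Filter.Tendsto (fun m : ℕ => (2 * K s + 1) * m) Filter.atTop Filter.atTop :=
      Filter.tendsto_atTop_mono (fun m => Nat.le_mul_of_pos_left m (by omega)) Filter.tendsto_id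
    exact h2.eventually h1
  obtain ⟨m, hm1, hm2⟩ := SEQ_gen hP (fun s m => ((2 * K s + 1) * m + 2) ^ (s + 2) + G s m +
    (2 * K s + 1) * m)
  set n : ℕ → ℕ := fun s => (2 * K s + 1) * m s with hn
  have hmn : ∀ s, m s ≤ n s := fun s => Nat.le_mul_of_pos_left _ (by omega)
  have hlt : ∀ s, (n s + 2) ^ (s + 2) + G s (m s) + n s < n (s + 1) := fun s =>
    lt_of_lt_of_le (hm2 s).2 (hmn (s + 1))
  refine ⟨n, m, ⟨strictMono_nat_of_lt_succ fun s => ?_, fun s => ⟨(hm2 s).1.2, ?_⟩⟩, fun s => ?_⟩
  · have := hlt s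
    omega
  · have := hlt s
    omega
  · refine hg _ _ (m s) (hm2 s).1.1 (n (s + 1)) ?_
    have := hlt s
    change G s (m s) < n (s + 1)
    omega

theorem Srch_congr {k m a N : ℕ} {O O' : Lang} (hN : sl a < N) (h : Agree N O O') :
    Srch k m a O ↔ Srch k m a O' := by
  have e : (fun b : List Bool => ¬ ∃ l' : List Bool, b.length + l'.length = (ones a).length ∧
      O (saddr (ones a) (b ++ l') true) = true) = (fun b : List Bool => ¬ ∃ l' : List Bool,
        b.length + l'.length = (ones a).length ∧ O' (saddr (ones a) (b ++ l') true) = true) := by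
    funext b
    apply propext
    have key : ∀ l' : List Bool, b.length + l'.length = (ones a).length →
        O (saddr (ones a) (b ++ l') true) = O' (saddr (ones a) (b ++ l') true) := by
      intro l' hl'
      apply h
      rw [saddr_length (by rw [List.length_append, hl']), FNP_ones]
      exact hN
    constructor
    · rintro h1 ⟨l', h2, h3⟩
      exact h1 ⟨l', h2, by rw [key l' h2]; exact h3⟩
    · rintro h1 ⟨l', h2, h3⟩
      exact h1 ⟨l', h2, by rw [← key l' h2]; exact h3⟩
  unfold Srch
  rw [e]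

theorem FNP_kill_congr {n : ℕ → ℕ} (hn : SeqA n) (s : ℕ) {O O' : Lang}
    (h : Agree (sl (n (s + 1))) O O') (hQ : KillA n s O) : KillA n s O' := by
  have hlt : n s < n (s + 1) := hn.1 (Nat.lt_succ_self s)
  obtain ⟨T, h1, h2, h3⟩ := hQ
  refine ⟨T, h1, ?_, (STA_dead_congr h).1 h3⟩
  intro h4
  exact h2 ((STA_dead_congr (STA_agree_mono (by unfold sl; omega) h)).2 h4)

theorem QP_local {n m : ℕ → ℕ} (hn : SeqA n)
    (hg : ∀ s, GoodLev (dcd s.unpair.1).1 (dcd s.unpair.1).2 (m s) (n s) (n (s + 1)))
    (s : ℕ) (O O' : Lang) (h : Agree (sl (n (s + 1))) O O') (hQ : QP n m s O) : QP n m s O' := by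
  have hlt : n s < n (s + 1) := hn.1 (Nat.lt_succ_self s)
  rcases hQ with hQ | hQ
  · exact Or.inl (FNP_kill_congr hn s h hQ)
  · right
    rw [← (hg s).2.2 O O' h, ← Srch_congr (by unfold sl; omega) h]
    exact hQ

/-- two oracles without a kill agree on the regions of the codes -/
theorem agreeP {n : ℕ → ℕ} (hn : SeqA n) {s : ℕ} {Y Y' : Lang}
    (hag : Agree (sl (n s)) Y Y')
    (hk : ¬ KillA n s (mkO (RA n) Y)) (hk' : ¬ KillA n s (mkO (RA n) Y')) :
    ∀ x : List Bool, x.head? ≠ some false → x.length < sl (n (s + 1)) →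
      mkO (RA n) Y x = mkO (RA n) Y' x := by
  have hbase : Agree (sl (n s)) (mkO (RA n) Y) (mkO (RA n) Y') := mkO_agree (RA_local n) hag
  intro x hf hx
  rw [mkO_eq (RA_local n), mkO_eq (RA_local n), if_neg hf, if_neg hf]
  unfold RA
  match x, hf with
  | [], _ => rfl
  | [true], _ => rfl
  | [true, true], _ => rfl
  | true :: false :: s', _ =>
    simp only [reg]
    congr 1
    apply propext
    exact STA_code_iff hn hbase hk hk' (by simp only [List.length_cons] at hx; omega)
  | true :: true :: false :: s', _ =>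
    simp only [reg]
    congr 1
    apply propext
    exact base_gap hn.1 hbase s' (by simp only [List.length_cons] at hx; omega)
  | true :: true :: true :: s', _ => rfl

open Classical in
/-- the secret part with the function `v` -/
noncomputable def Yv (k m a : ℕ) (Y : Lang) (v : List (X m) → Bool) : Lang := fun x =>
  if h : ∃ l : List (X m), l.length = 2 * k + 1 ∧ x = saddr (ones a) (flat l) true then
    !v h.choose else Y x

theorem Yv_in {k m a : ℕ} (ha : a = (2 * k + 1) * m) (Y : Lang) (v : List (X m) → Bool)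
    (l : List (X m)) (hl : l.length = 2 * k + 1) :
    Yv k m a Y v (saddr (ones a) (flat l) true) = !v l := by
  have h : ∃ l' : List (X m), l'.length = 2 * k + 1 ∧
      saddr (ones a) (flat l) true = saddr (ones a) (flat l') true := ⟨l, hl, rfl⟩
  have e : h.choose = l := by
    obtain ⟨h1, h2⟩ := h.choose_spec
    have h3 := (addr_saddr_inj (by rw [FNP_ones, length_flat, hl, ha])
      (by rw [FNP_ones, length_flat, h1, ha]) h2).2.1
    exact (flat_inj (by rw [hl, h1]) h3).symm
  unfold Yv
  rw [dif_pos h, e]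

theorem Yv_out {k m a : ℕ} (Y : Lang) (v : List (X m) → Bool) {x : List Bool}
    (h : ¬ ∃ l : List (X m), l.length = 2 * k + 1 ∧ x = saddr (ones a) (flat l) true) :
    Yv k m a Y v x = Y x := by
  unfold Yv
  rw [dif_neg h]

theorem Yv_len {k m a : ℕ} (ha : a = (2 * k + 1) * m) (Y : Lang) (v : List (X m) → Bool)
    {x : List Bool} (h : x.length ≠ sl a) : Yv k m a Y v x = Y x := by
  apply Yv_out
  rintro ⟨l, hl, rfl⟩
  apply h
  rw [saddr_length (by rw [FNP_ones, length_flat, hl, ha]), FNP_ones]
  rfl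

theorem stageP {n m : ℕ → ℕ} (hn : SeqA n)
    (hg : ∀ s, GoodLev (dcd s.unpair.1).1 (dcd s.unpair.1).2 (m s) (n s) (n (s + 1)))
    (s : ℕ) (Y : Lang) (hY : ∀ x : List Bool, sl (n s) ≤ x.length → Y x = false) :
    ∃ Y' : Lang, Agree (sl (n s)) Y Y' ∧
      (∀ x : List Bool, sl (n (s + 1)) ≤ x.length → Y' x = false) ∧
      QP n m s (mkO (RA n) Y') := by
  classical
  have hlt : n s < n (s + 1) := hn.1 (Nat.lt_succ_self s)
  obtain ⟨ha, hkill, -⟩ := hg s
  set k := (dcd s.unpair.1).1 with hk
  set s' := (dcd s.unpair.1).2 with hs'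
  have h1 : ∀ v : List (X (m s)) → Bool, Agree (sl (n s)) Y (Yv k (m s) (n s) Y v) := by
    intro v x hx
    exact (Yv_len ha Y v (by omega)).symm
  have h2 : ∀ (v : List (X (m s)) → Bool) (x : List Bool), sl (n (s + 1)) ≤ x.length →
      Yv k (m s) (n s) Y v x = false := by
    intro v x hx
    have h3 : sl (n s) < sl (n (s + 1)) := by unfold sl; omega
    rw [Yv_len ha Y v (by omega)]
    exact hY x (by omega)
  by_cases hK : ∃ v : List (X (m s)) → Bool, KillA n s (mkO (RA n) (Yv k (m s) (n s) Y v))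
  · obtain ⟨v, hv⟩ := hK
    exact ⟨_, h1 v, h2 v, Or.inl hv⟩
  · push Not at hK
    have hcert : ∀ w : List Bool, w.length < sl (n (s + 1)) →
        CertC 1 (fun v => mkO (RA n) (Yv k (m s) (n s) Y v) w) := by
      intro w hw v
      by_cases hf : w.head? = some false
      · have e : ∀ v', mkO (RA n) (Yv k (m s) (n s) Y v') w = Yv k (m s) (n s) Y v' w := by
          intro v'
          rw [mkO_eq (RA_local n), if_pos hf]
        by_cases hl : ∃ l : List (X (m s)), l.length = 2 * k + 1 ∧
            w = saddr (ones (n s)) (flat l) true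
        · obtain ⟨l, hl1, hl2⟩ := hl
          refine ⟨{l}, by simp, fun v' hv' => ?_⟩
          simp only [e]
          rw [hl2, Yv_in ha Y v' l hl1, Yv_in ha Y v l hl1, hv' l (by simp)]
        · refine ⟨∅, by simp, fun v' _ => ?_⟩
          simp only [e]
          rw [Yv_out Y v' hl, Yv_out Y v hl]
      · refine ⟨∅, by simp, fun v' _ => ?_⟩
        exact agreeP hn (fun x hx => ((h1 v' x hx).symm.trans (h1 v x hx))) (hK v') (hK v) w hf hw
    have hreal : ∀ (v : List (X (m s)) → Bool) (l : List (X (m s))), l.length = 2 * k + 1 →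
        (v l = true ↔ ¬ ∃ l' : List Bool, (flat l).length + l'.length = (ones (n s)).length ∧
          mkO (RA n) (Yv k (m s) (n s) Y v) (saddr (ones (n s)) (flat l ++ l') true) = true) := by
      intro v l hl
      have e : ∀ x : List Bool, mkO (RA n) (Yv k (m s) (n s) Y v) (saddr (ones (n s)) x true) =
          Yv k (m s) (n s) Y v (saddr (ones (n s)) x true) := by
        intro x
        rw [mkO_eq (RA_local n), if_pos]
        rfl
      have hfl : (flat l).length = (ones (n s)).length := by
        rw [FNP_ones, length_flat, hl, ha]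
      constructor
      · rintro hv ⟨l', h3, h4⟩
        have : l' = [] := by
          apply List.length_eq_zero_iff.1
          omega
        subst this
        rw [List.append_nil, e, Yv_in ha Y v l hl, hv] at h4
        exact absurd h4 (by simp)
      · intro hne
        by_contra hv
        apply hne
        refine ⟨[], by rw [hfl]; rfl, ?_⟩
        rw [List.append_nil, e, Yv_in ha Y v l hl]
        simpa using hv
    obtain ⟨v, hv⟩ := hkill (fun v => mkO (RA n) (Yv k (m s) (n s) Y v)) hcert hreal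
    exact ⟨_, h1 v, h2 v, Or.inr hv⟩

theorem FNP_no_kills {n : ℕ → ℕ} (hn : StrictMono n) {O : Lang} (i : ℕ)
    (hkill : ∀ j, KillA n (Nat.pair i j) O) : False := by
  classical
  choose T h1 h2 h3 using hkill
  have hsl : Monotone (fun s => sl (n s)) := by
    intro a b hab
    have := hn.monotone hab
    change 2 * n a + 2 ≤ 2 * n b + 2
    omega
  have hinj : ∀ j j', j < j' → T j ≠ T j' := by
    intro j j' hjj hT
    have hp : Nat.pair i j + 1 ≤ Nat.pair i j' := Nat.pair_lt_pair_right i hjj
    have := FNA_dead_mono (hsl hp) (h3 j)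
    rw [hT] at this
    exact h2 j' this
  have hlt : ∀ j ≤ i + 1, idx (T j) < i := by
    intro j hj
    have h4 := h1 j
    have h5 := FNA_pair_lt hj
    have h6 : (idx (T j) + 2) ^ 2 < (i + 2) ^ 2 := lt_of_le_of_lt h4 h5
    have h7 := lt_of_pow_lt_pow_left₀ 2 (by omega) h6
    omega
  have hcard : (Finset.range (i + 2)).card ≤ (Finset.range i).card := by
    apply Finset.card_le_card_of_injOn (fun j => idx (T j))
    · intro j hj
      have hj' : j < i + 2 := by simpa using hj
      simpa using hlt j (by omega)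
    · intro j hj j' hj' hjj
      by_contra hne
      have hT := FNA_idx_inj hjj
      rcases Nat.lt_or_gt_of_ne hne with hl | hl
      · exact hinj j j' hl hT
      · exact hinj j' j hl hT.symm
  rw [Finset.card_range, Finset.card_range] at hcard
  omega

theorem finalP : ∃ O : Lang, (∀ k, ∃ L, InSig O (k + 1) L ∧ ¬ InSig O k L) ∧
    (∃ B, Base O B ∧ ∀ σ, S12 σ → B σ) ∧
    ∀ B, Base O B → ∃ S, InT O B S ∧ ∀ T, InT O B T → PolyBounded O S (RFN T) := by
  obtain ⟨n, m, hn, hg⟩ := exists_seqP
  have hb : StrictMono (fun s => sl (n s)) := by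
    intro a b hab
    have := hn.1 hab
    change 2 * n a + 2 < 2 * n b + 2
    omega
  obtain ⟨Y, hY⟩ := stage_lemma (RA_local n) (fun s => sl (n s)) hb (QP n m)
    (fun s O O' h hQ => QP_local hn hg s O O' h hQ) (fun s Y hY => stageP hn hg s Y hY)
  set O := mkO (RA n) Y with hO
  have hcode : ∀ s, O (true :: false :: s) = true ↔ CodeA n O s := by
    intro s
    rw [hO, mkO_eq (RA_local n), if_neg (by simp), ← hO]
    simp [RA, reg]
  have hbase : ∀ s, O (true :: true :: false :: s) = true ↔ BaseP (gap n) O s := by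
    intro s
    rw [hO, mkO_eq (RA_local n), if_neg (by simp), ← hO]
    simp [RA, reg]
  have hph : ∀ k, ∃ L, InSig O (k + 1) L ∧ ¬ InSig O k L := by
    apply ph_infinite
    intro k
    obtain ⟨Q, hQ1, hQ2⟩ := up (2 * k)
    refine ⟨Q O, hQ1 O, fun s' hs' => ?_⟩
    apply FNP_no_kills hn.1 (O := O) (Encodable.encode (k, s'))
    intro j
    rcases hY (Nat.pair (Encodable.encode (k, s')) j) with h | h
    · exact h
    · exfalso
      apply h
      have hd : dcd (Nat.pair (Encodable.encode (k, s')) j).unpair.1 = (k, s') := by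
        rw [Nat.unpair_pair]
        unfold dcd
        rw [Encodable.encodek, Option.getD_some]
      rw [hd]
      change SL k s' O _ = true ↔ _
      rw [hs', hQ2]
      rfl
  refine ⟨O, hph, base_exists hbase, ?_⟩
  intro B hB
  refine S_exists hB RFN ?_ ?_ RFN_len
  · intro σ hσ
    rw [hcode] at hσ
    obtain ⟨T, m, k, h1, h2, h3, h4⟩ := hσ
    have h5 : σ = pad m (RFN T k) := by
      refine (enc_inj (a := []) (b := []) ?_).1
      rw [List.append_nil, List.append_nil]
      exact h1
    subst h5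
    refine ⟨(pad_closed m _).2 (closed_RFN T k), (pad_true O m _).2 ?_⟩
    intro v
    exact (holds_RFN O v T k).2 (h4 k le_rfl)
  · intro T hT
    obtain ⟨C, hC⟩ := FNA_poly (T.2 + 2) (sl (n ((idx T + 2) ^ 2)))
    refine ⟨C, fun k => ⟨Dep T.2 k + sl (n ((idx T + 2) ^ 2)), ?_, ?_⟩⟩
    · have := dep_poly T.2 k
      have := hC k
      omega
    · rw [hcode]
      exact ⟨T, _, k, rfl, by omega, by omega, fun k' _ => inT_rfnT hB hT k'⟩

end Pool.Agent.RF
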